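import Pool.Agent.helper132_dc.D9
import Pool.Agent.helper132_ec.E1
import Pool.Agent.helper132_quad.Q1

/-! Vinogradov's mean value theorem at the critical exponent. -/

namespace Pool.Agent.helper132_dc

open Finset Pool.Agent.helper132_sph Pool.Agent.helper132_poly Pool.Agent.helper132_quad

/-- the functions. -/
noncomputable def FN (k N : ℕ) (n : ℤ) (ω : ↥(gr k N)) : ℂ := eg N ω.1 (mom k n)

lemma FN_orth (k N X s : ℕ) (hX : 1 ≤ X) (hN : s * X ^ k < N) (M : ℤ) :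
    OS (fun _ : ↥(gr k N) => (1 : ℝ)) (FN k N) (Ico (0 : ℤ) X) 1 k s M := by
  intro x y hx hy hn
  have hbx : ∀ u : Fin s → ℤ, (∀ i, u i ∈ Ico (0 : ℤ) X) → ∀ i, 0 ≤ u i ∧ u i < X := by
    intro u hu i; exact Finset.mem_Ico.1 (hu i)
  have e1 : ∀ ω : ↥(gr k N), ((1 : ℝ) : ℂ) * ((∏ i, FN k N (x i) ω) * ∏ i, (starRingEnd ℂ) (FN k N (y i) ω)) =
      eg N ω.1 (psm k x + -psm k y) := by
    intro ω
    rw [eg_add, eg_neg]
    unfold psm FN
    rw [eg_sum, eg_sum, map_prod]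
    push_cast
    rw [one_mul]
  rw [Finset.sum_congr rfl fun ω _ => e1 ω]
  rw [Finset.sum_coe_sort (gr k N) (fun a => eg N a (psm k x + -psm k y))]
  rw [orth1 N (by omega) _ (by
    intro j
    have h1 := psm_bound k s X hX x (hbx x hx) j
    have h2 := psm_bound k s X hX y (hbx y hy) j
    have h3 : ((s * X ^ k : ℕ) : ℤ) < N := by exact_mod_cast hN
    push_cast at h3
    rw [Pi.add_apply, Pi.neg_apply, abs_lt]
    constructor <;> linarith [h1.1, h1.2, h2.1, h2.2]), if_neg]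
  intro h0
  apply hn
  intro j hj1 hjk
  have h1 := congrFun h0 ⟨j - 1, by omega⟩
  rw [Pi.add_apply, Pi.neg_apply, psm_apply, psm_apply, Pi.zero_apply] at h1
  simp only at h1
  have e2 : j - 1 + 1 = j := by omega
  rw [e2] at h1
  have h2 : ∑ i, x i ^ j - ∑ i, y i ^ j = 0 := by linarith
  rw [h2]
  exact dvd_zero _

/-- **Vinogradov's mean value theorem at the critical exponent.** -/
theorem vmvt (k : ℕ) (hk : 1 ≤ k) (η : ℝ) (hη : 0 < η) : ∃ C : ℝ, 1 ≤ C ∧ MVT k (sk k) η C := by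
  obtain ⟨p0, hp0⟩ := dec_main k hk η hη
  obtain ⟨p, hpp, hp⟩ := Nat.exists_infinite_primes p0
  obtain ⟨C, hC, hU⟩ := hp0 p hp hpp
  have hpR1 : (1 : ℝ) ≤ p := by exact_mod_cast hp.one_lt.le
  have hpR0 : (0 : ℝ) < p := by linarith
  obtain ⟨s, hs⟩ : ∃ s, s = sk k := ⟨_, rfl⟩
  have hs1 : 1 ≤ s := by rw [hs]; exact sk_pos k hk
  refine ⟨C * (p : ℝ) ^ η, ?_, ?_⟩
  · have : (1 : ℝ) ≤ (p : ℝ) ^ η := Real.one_le_rpow hpR1 hη.le
    nlinarith
  intro X hX
  have hXR : (1 : ℝ) ≤ X := by exact_mod_cast hX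
  have hX0 : (0 : ℝ) < X := by linarith
  obtain ⟨B, hB⟩ : ∃ B, B = Nat.clog p X := ⟨_, rfl⟩
  have hXB : X ≤ p ^ B := by rw [hB]; exact Nat.le_pow_clog hp.one_lt X
  have hBX : p ^ B ≤ p * X := by
    rcases Nat.lt_or_ge 1 X with h | h
    · have h1 := Nat.pow_pred_clog_lt_self hp.one_lt h
      rw [← hB] at h1
      have hB1 : 1 ≤ B := by
        rw [hB]; exact Nat.clog_pos hp.one_lt h
      have h2 : p ^ B = p * p ^ B.pred := by
        rw [← pow_succ']; congr 1; rw [Nat.pred_eq_sub_one]; omega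
      rw [h2]
      exact Nat.mul_le_mul_left _ h1.le
    · have : X = 1 := by omega
      rw [hB, this, Nat.clog_one_right, pow_zero, mul_one]
      exact hp.one_lt.le
  obtain ⟨N, hN⟩ : ∃ N, N = s * X ^ k + 1 := ⟨_, rfl⟩
  have hNN : s * X ^ k < N := by omega
  have hN0 : (0 : ℝ) < (N : ℝ) ^ k := by
    have : (0 : ℝ) < N := by exact_mod_cast (by omega : 0 < N)
    positivity
  have hmain := hU ↥(gr k N) inferInstance B (fun _ => (1 : ℝ)) (FN k N) (Ico (0 : ℤ) X) (fun _ => zero_le_one)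
    (FN_orth k N X (sk k) hX (by rw [← hs]; exact hNN) _)
  rw [← hs] at hmain
  -- left side
  have hL : nm (fun _ : ↥(gr k N) => (1 : ℝ)) s (Sm (Ico (0 : ℤ) X) (FN k N)) = (N : ℝ) ^ k * Jm k s X := by
    rw [← Jm_eq k s X N hX hNN]
    unfold nm
    rw [← Finset.sum_coe_sort (gr k N) (fun a => ‖Fs k N X a‖ ^ (2 * s))]
    refine Finset.sum_congr rfl fun ω _ => ?_
    rw [one_mul]
    rfl
  -- right side
  have hR : ∀ c ∈ range (p ^ B), nm (fun _ : ↥(gr k N) => (1 : ℝ)) s (Sm (cls (p ^ B) (Ico (0 : ℤ) X) c) (FN k N)) =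
      if c < X then (N : ℝ) ^ k else 0 := by
    intro c hc
    rw [Finset.mem_range] at hc
    have hcls : cls (p ^ B) (Ico (0 : ℤ) X) c = if c < X then {(c : ℤ)} else ∅ := by
      ext n
      rw [mem_cls, Finset.mem_Ico]
      constructor
      · rintro ⟨⟨hn0, hnX⟩, hd⟩
        have h1 := Int.eq_zero_of_abs_lt_dvd hd (by
          have h2 : (X : ℤ) ≤ ((p ^ B : ℕ) : ℤ) := by exact_mod_cast hXB
          have h3 : (c : ℤ) < ((p ^ B : ℕ) : ℤ) := by exact_mod_cast hc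
          rw [abs_lt]
          constructor <;> omega)
        have h2 : n = c := by omega
        rw [if_pos (by omega), h2, Finset.mem_singleton]
      · intro h
        split_ifs at h with h1
        · rw [Finset.mem_singleton] at h
          subst h
          refine ⟨⟨by omega, by exact_mod_cast h1⟩, ?_⟩
          simp
        · exact absurd h (Finset.notMem_empty _)
    rw [hcls]
    split_ifs with h
    · unfold nm Sm FN
      have e1 : ∀ ω : ↥(gr k N), (1 : ℝ) * ‖∑ n ∈ ({(c : ℤ)} : Finset ℤ), eg N ω.1 (mom k n)‖ ^ (2 * s) = 1 := by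
        intro ω
        rw [Finset.sum_singleton, norm_eg, one_pow, one_mul]
      rw [Finset.sum_congr rfl fun ω _ => e1 ω, Finset.sum_const, Finset.card_univ, Fintype.card_coe, card_gr]
      simp
    · unfold nm Sm
      simp only [Finset.sum_empty, norm_zero]
      rw [zero_pow (by omega)]
      simp
  have hR2 : ∑ c ∈ range (p ^ B), nm (fun _ : ↥(gr k N) => (1 : ℝ)) s
      (Sm (cls (p ^ B) (Ico (0 : ℤ) X) c) (FN k N)) ^ ((1 : ℝ) / s) = X * ((N : ℝ) ^ k) ^ ((1 : ℝ) / s) := by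
    have e1 : ∀ c ∈ range (p ^ B), nm (fun _ : ↥(gr k N) => (1 : ℝ)) s
        (Sm (cls (p ^ B) (Ico (0 : ℤ) X) c) (FN k N)) ^ ((1 : ℝ) / s) = if c < X then ((N : ℝ) ^ k) ^ ((1 : ℝ) / s) else 0 := by
      intro c hc
      rw [hR c hc]
      split_ifs
      · rfl
      · have hs0 : (0 : ℝ) < s := by exact_mod_cast hs1
        exact Real.zero_rpow (by positivity)
    rw [Finset.sum_congr rfl e1, ← Finset.sum_filter]
    have e2 : (range (p ^ B)).filter (fun c => c < X) = range X := by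
      ext c
      rw [Finset.mem_filter, Finset.mem_range, Finset.mem_range]
      omega
    rw [e2, Finset.sum_const, Finset.card_range, nsmul_eq_mul]
  rw [hL, hR2, mul_pow, one_div, Real.rpow_inv_natCast_pow hN0.le (by omega)] at hmain
  have h1 : (Jm k s X : ℝ) ≤ C * (p : ℝ) ^ (η * B) * (X : ℝ) ^ s := by
    have h2 : (N : ℝ) ^ k * Jm k s X ≤ (N : ℝ) ^ k * (C * (p : ℝ) ^ (η * B) * (X : ℝ) ^ s) := by
      refine hmain.trans (le_of_eq ?_); ring
    exact le_of_mul_le_mul_left h2 hN0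
  have h3 : (p : ℝ) ^ (η * B) ≤ (p : ℝ) ^ η * (X : ℝ) ^ η := by
    rw [← Real.mul_rpow hpR0.le hX0.le, mul_comm η, Real.rpow_mul hpR0.le, Real.rpow_natCast]
    exact Real.rpow_le_rpow (by positivity) (by exact_mod_cast hBX) hη.le
  rw [← hs]
  have h4 : 2 * (s : ℝ) - (k : ℝ) * (k + 1) / 2 + η = s + η := by
    have h5 := two_sk k
    rw [← hs] at h5
    have h6 : 2 * (s : ℝ) = k * (k + 1) := by exact_mod_cast h5
    linarith
  rw [h4, Real.rpow_add hX0, Real.rpow_natCast]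
  calc (Jm k s X : ℝ) ≤ C * (p : ℝ) ^ (η * B) * (X : ℝ) ^ s := h1
    _ ≤ C * ((p : ℝ) ^ η * (X : ℝ) ^ η) * (X : ℝ) ^ s := by gcongr
    _ = _ := by ring

end Pool.Agent.helper132_dc
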