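import Mathlib

/-! Decoupling for the moment curve: definitions. -/

namespace Pool.Agent.helper132_dc

open Finset

variable {Ω : Type} [Fintype Ω]

/-- weighted moment. -/
noncomputable def nm (w : Ω → ℝ) (s : ℕ) (f : Ω → ℂ) : ℝ := ∑ ω, w ω * ‖f ω‖ ^ (2 * s)

/-- residue class. -/
def cls (q : ℕ) (S : Finset ℤ) (c : ℤ) : Finset ℤ := S.filter (fun n => (q : ℤ) ∣ n - c)

/-- sum over a set of frequencies. -/
noncomputable def Sm (S : Finset ℤ) (F : ℤ → Ω → ℂ) : Ω → ℂ := fun ω => ∑ n ∈ S, F n ω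

/-- power sums with exponents in `[j0, k]` agree modulo `M`. -/
def PS (j0 k s : ℕ) (M : ℤ) (x y : Fin s → ℤ) : Prop :=
  ∀ j, j0 ≤ j → j ≤ k → M ∣ ∑ i, x i ^ j - ∑ i, y i ^ j

/-- orthogonality. -/
def OS (w : Ω → ℝ) (F : ℤ → Ω → ℂ) (S : Finset ℤ) (j0 k s : ℕ) (M : ℤ) : Prop :=
  ∀ x y : Fin s → ℤ, (∀ i, x i ∈ S) → (∀ i, y i ∈ S) → ¬ PS j0 k s M x y →
    ∑ ω, (w ω : ℂ) * ((∏ i, F (x i) ω) * ∏ i, (starRingEnd ℂ) (F (y i) ω)) = 0

/-- critical number of variables. -/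
def sk (k : ℕ) : ℕ := k * (k + 1) / 2

/-- decoupling at level `B`. -/
def Dec (Ω : Type) [Fintype Ω] (p k B : ℕ) (K : ℝ) : Prop :=
  ∀ (w : Ω → ℝ) (F : ℤ → Ω → ℂ) (S : Finset ℤ), (∀ ω, 0 ≤ w ω) →
    OS w F S 1 k (sk k) ((p : ℤ) ^ (k * B)) →
    nm w (sk k) (Sm S F) ≤
      K * (∑ c ∈ range (p ^ B), nm w (sk k) (Sm (cls (p ^ B) S c) F) ^ ((1 : ℝ) / sk k)) ^ sk k

lemma two_sk (k : ℕ) : 2 * sk k = k * (k + 1) := by
  unfold sk
  have := Nat.even_mul_succ_self k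
  exact Nat.mul_div_cancel' this.two_dvd

lemma sk_pos (k : ℕ) (hk : 1 ≤ k) : 1 ≤ sk k := by
  have := two_sk k
  have h2 : 1 * 2 ≤ k * (k + 1) := Nat.mul_le_mul hk (by omega)
  omega

lemma sk_mono {l k : ℕ} (h : l ≤ k) : sk l ≤ sk k := by
  have h1 := two_sk l
  have h2 := two_sk k
  have h3 : l * (l + 1) ≤ k * (k + 1) := Nat.mul_le_mul h (by omega)
  omega

lemma nm_nonneg {w : Ω → ℝ} (hw : ∀ ω, 0 ≤ w ω) (s : ℕ) (f : Ω → ℂ) : 0 ≤ nm w s f :=
  Finset.sum_nonneg fun ω _ => mul_nonneg (hw ω) (by positivity)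

lemma mem_cls {q : ℕ} {S : Finset ℤ} {c n : ℤ} : n ∈ cls q S c ↔ n ∈ S ∧ (q : ℤ) ∣ n - c := by
  unfold cls; rw [Finset.mem_filter]

lemma cls_sub (q : ℕ) (S : Finset ℤ) (c : ℤ) : cls q S c ⊆ S := Finset.filter_subset _ _

lemma cls_one (S : Finset ℤ) (c : ℤ) : cls 1 S c = S := by
  ext n
  rw [mem_cls]
  simp

lemma OS.mono {w : Ω → ℝ} {F : ℤ → Ω → ℂ} {S S' : Finset ℤ} {j0 k s : ℕ} {M : ℤ} (h : OS w F S j0 k s M)
    (hS : S' ⊆ S) : OS w F S' j0 k s M :=
  fun x y hx hy hn => h x y (fun i => hS (hx i)) (fun i => hS (hy i)) hn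

lemma Dec.mono {p k B : ℕ} {K K' : ℝ} (h : Dec Ω p k B K) (hK : K ≤ K') : Dec Ω p k B K' := by
  intro w F S hw hOS
  refine (h w F S hw hOS).trans (mul_le_mul_of_nonneg_right hK ?_)
  exact pow_nonneg (Finset.sum_nonneg fun c _ => Real.rpow_nonneg (nm_nonneg hw _ _) _) _

/-- base `q` digits. -/
lemma sum_digits {M : Type} [AddCommMonoid M] (P Q : ℕ) (g : ℕ → M) :
    ∑ e ∈ range (P * Q), g e = ∑ e ∈ range P, ∑ e' ∈ range Q, g (e + P * e') := by
  rw [Finset.sum_comm]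
  induction Q with
  | zero => simp
  | succ n ih =>
    rw [Finset.sum_range_succ, ← ih, mul_add, mul_one, Finset.sum_range_add]
    congr 1
    refine Finset.sum_congr rfl fun e _ => ?_
    rw [add_comm]

/-- splitting a class into finer classes. -/
lemma cls_split {M : Type} [AddCommMonoid M] (q r : ℕ) (hq : 1 ≤ q) (hr : 1 ≤ r) (S : Finset ℤ) (c : ℤ) (g : ℤ → M) :
    ∑ n ∈ cls q S c, g n = ∑ e ∈ range r, ∑ n ∈ cls (q * r) S (c + q * e), g n := by
  classical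
  have hqz : (0 : ℤ) < q := by exact_mod_cast hq
  have hrz : (0 : ℤ) < r := by exact_mod_cast hr
  rw [← Finset.sum_fiberwise_of_maps_to (s := cls q S c) (t := range r)
    (g := fun n : ℤ => (((n - c) / q) % r).toNat) (by
      intro n _
      rw [Finset.mem_range]
      have h1 := Int.emod_lt_of_pos ((n - c) / q) hrz
      have h2 := Int.emod_nonneg ((n - c) / q) hrz.ne'
      omega)]
  refine Finset.sum_congr rfl fun e he => ?_
  rw [Finset.mem_range] at he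
  refine Finset.sum_congr ?_ fun _ _ => rfl
  ext n
  rw [Finset.mem_filter, mem_cls, mem_cls]
  constructor
  · rintro ⟨⟨hS, z, hz⟩, h⟩
    refine ⟨hS, ?_⟩
    have h1 : (n - c) / q = z := by rw [hz]; exact Int.mul_ediv_cancel_left z hqz.ne'
    rw [h1] at h
    have h2 := Int.emod_nonneg z hrz.ne'
    have h3 : z % r = e := by omega
    have h4 := Int.mul_ediv_add_emod z r
    refine ⟨z / r, ?_⟩
    have : n - (c + q * e) = q * (z - e) := by rw [mul_sub, ← hz]; ring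
    rw [this]
    push_cast
    have h5 : z - e = r * (z / r) := by linarith
    rw [h5]; ring
  · rintro ⟨hS, z, hz⟩
    push_cast at hz
    have h1 : n - c = q * (e + r * z) := by linarith
    refine ⟨⟨hS, _, h1⟩, ?_⟩
    have h2 : (n - c) / q = e + r * z := by rw [h1]; exact Int.mul_ediv_cancel_left _ hqz.ne'
    rw [h2, Int.add_mul_emod_self_left, Int.emod_eq_of_lt (by omega) (by exact_mod_cast he)]
    simp

lemma Sm_split (q r : ℕ) (hq : 1 ≤ q) (hr : 1 ≤ r) (S : Finset ℤ) (c : ℤ) (F : ℤ → Ω → ℂ) (ω : Ω) :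
    Sm (cls q S c) F ω = ∑ e ∈ range r, Sm (cls (q * r) S (c + q * e)) F ω := by
  unfold Sm
  exact cls_split q r hq hr S c (fun n => F n ω)

/-- base case: degree one. -/
lemma dec_one (p B : ℕ) (hp : 1 ≤ p) : Dec Ω p 1 B 1 := by
  classical
  intro w F S hw hOS
  have hs : sk 1 = 1 := rfl
  rw [hs] at hOS ⊢
  have hP : 1 ≤ p ^ B := Nat.one_le_pow _ _ hp
  have hsplit : ∀ ω, Sm S F ω = ∑ e ∈ range (p ^ B), Sm (cls (p ^ B) S e) F ω := by
    intro ω
    have := Sm_split 1 (p ^ B) le_rfl hP S 0 F ω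
    rw [cls_one] at this
    rw [this]
    refine Finset.sum_congr rfl fun e _ => ?_
    rw [one_mul]
    congr 3
    push_cast; ring
  have horth : ∀ c ∈ range (p ^ B), ∀ c' ∈ range (p ^ B), c ≠ c' →
      ∑ ω, (w ω : ℂ) * (Sm (cls (p ^ B) S c) F ω * (starRingEnd ℂ) (Sm (cls (p ^ B) S c') F ω)) = 0 := by
    intro c hc c' hc' hne
    have e1 : ∀ ω, (w ω : ℂ) * (Sm (cls (p ^ B) S c) F ω * (starRingEnd ℂ) (Sm (cls (p ^ B) S c') F ω)) =
        ∑ n ∈ cls (p ^ B) S c, ∑ n' ∈ cls (p ^ B) S c', (w ω : ℂ) * (F n ω * (starRingEnd ℂ) (F n' ω)) := by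
      intro ω
      unfold Sm
      rw [map_sum, Finset.sum_mul_sum, Finset.mul_sum]
      refine Finset.sum_congr rfl fun n _ => ?_
      rw [Finset.mul_sum]
    rw [Finset.sum_congr rfl fun ω _ => e1 ω, Finset.sum_comm]
    refine Finset.sum_eq_zero fun n hn => ?_
    rw [Finset.sum_comm]
    refine Finset.sum_eq_zero fun n' hn' => ?_
    rw [mem_cls] at hn hn'
    have h1 := hOS (fun _ => n) (fun _ => n') (fun _ => hn.1) (fun _ => hn'.1) (by
      intro hPS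
      have h2 := hPS 1 le_rfl le_rfl
      simp only [Finset.univ_unique, Finset.sum_singleton, pow_one, one_mul] at h2
      have h3 : ((p : ℤ) ^ B) ∣ (c : ℤ) - c' := by
        have e2 : (c : ℤ) - c' = (n - n') - (n - c) + (n' - c') := by ring
        rw [e2]
        refine dvd_add (dvd_sub h2 ?_) ?_
        · exact_mod_cast hn.2
        · exact_mod_cast hn'.2
      rw [Finset.mem_range] at hc hc'
      have h4 := Int.eq_zero_of_abs_lt_dvd h3 (by
        rw [abs_lt]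
        have hc1 : (c : ℤ) < (p : ℤ) ^ B := by exact_mod_cast hc
        have hc2 : (c' : ℤ) < (p : ℤ) ^ B := by exact_mod_cast hc'
        constructor <;> omega)
      omega)
    simpa using h1
  have hmain : ((nm w 1 (Sm S F) : ℝ) : ℂ) = ∑ c ∈ range (p ^ B), ((nm w 1 (Sm (cls (p ^ B) S c) F) : ℝ) : ℂ) := by
    have e1 : ∀ f : Ω → ℂ, ((nm w 1 f : ℝ) : ℂ) = ∑ ω, (w ω : ℂ) * (f ω * (starRingEnd ℂ) (f ω)) := by
      intro f
      unfold nm
      push_cast
      refine Finset.sum_congr rfl fun ω _ => ?_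
      rw [Complex.mul_conj']
    rw [e1]
    have e2 : ∀ ω, (w ω : ℂ) * (Sm S F ω * (starRingEnd ℂ) (Sm S F ω)) =
        ∑ c ∈ range (p ^ B), ∑ c' ∈ range (p ^ B),
          (w ω : ℂ) * (Sm (cls (p ^ B) S c) F ω * (starRingEnd ℂ) (Sm (cls (p ^ B) S c') F ω)) := by
      intro ω
      rw [hsplit ω, map_sum, Finset.sum_mul_sum, Finset.mul_sum]
      refine Finset.sum_congr rfl fun n _ => ?_
      rw [Finset.mul_sum]
    rw [Finset.sum_congr rfl fun ω _ => e2 ω, Finset.sum_comm]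
    refine Finset.sum_congr rfl fun c hc => ?_
    rw [Finset.sum_comm, Finset.sum_eq_single c]
    · rw [e1]
    · intro c' hc' hne
      exact horth c hc c' hc' (Ne.symm hne)
    · intro h; exact absurd hc h
  have hmain' : nm w 1 (Sm S F) = ∑ c ∈ range (p ^ B), nm w 1 (Sm (cls (p ^ B) S c) F) := by
    exact_mod_cast hmain
  rw [hmain', one_mul, pow_one]
  refine le_of_eq (Finset.sum_congr rfl fun c _ => ?_)
  rw [Nat.cast_one, div_one, Real.rpow_one]

end Pool.Agent.helper132_dc
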