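import Pool.Agent.helper132_dc.D1

/-! Affine changes of variables. -/

namespace Pool.Agent.helper132_dc

open Finset

variable {Ω : Type} [Fintype Ω]

lemma aff_ps (j s : ℕ) (c q : ℤ) (x y : Fin s → ℤ) :
    ∑ i, (c + q * x i) ^ j - ∑ i, (c + q * y i) ^ j =
      ∑ r ∈ range (j + 1), (j.choose r : ℤ) * c ^ (j - r) * q ^ r * (∑ i, x i ^ r - ∑ i, y i ^ r) := by
  have e1 : ∀ z : ℤ, (c + q * z) ^ j = ∑ r ∈ range (j + 1), (j.choose r : ℤ) * c ^ (j - r) * q ^ r * z ^ r := by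
    intro z
    rw [add_comm, add_pow]
    refine Finset.sum_congr rfl fun r _ => ?_
    rw [mul_pow]; ring
  have e2 : ∀ u : Fin s → ℤ, ∑ i, (c + q * u i) ^ j =
      ∑ r ∈ range (j + 1), (j.choose r : ℤ) * c ^ (j - r) * q ^ r * ∑ i, u i ^ r := by
    intro u
    rw [Finset.sum_congr rfl fun i _ => e1 (u i), Finset.sum_comm]
    refine Finset.sum_congr rfl fun r _ => ?_
    rw [Finset.mul_sum]
  rw [e2, e2, ← Finset.sum_sub_distrib]
  refine Finset.sum_congr rfl fun r _ => ?_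
  rw [mul_sub]

/-- translation. -/
lemma PS.trans {k s : ℕ} {M : ℤ} {x y : Fin s → ℤ} (h : PS 1 k s M x y) (c : ℤ) :
    PS 1 k s M (fun i => x i - c) (fun i => y i - c) := by
  intro j hj1 hjk
  have e := aff_ps j s (-c) 1 x y
  have e' : ∑ i, (x i - c) ^ j - ∑ i, (y i - c) ^ j = ∑ i, (-c + 1 * x i) ^ j - ∑ i, (-c + 1 * y i) ^ j := by
    congr 1 <;> refine Finset.sum_congr rfl fun i _ => ?_ <;> ring
  beta_reduce
  rw [e', e]
  refine Finset.dvd_sum fun r hr => ?_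
  rcases Nat.eq_zero_or_pos r with h0 | h0
  · subst h0; simp
  · rw [Finset.mem_range] at hr
    exact Dvd.dvd.mul_left (h r h0 (by omega)) _

/-- dilation. -/
lemma PS.dilate {p k s a T h : ℕ} (hp : 1 ≤ p) {x y : Fin s → ℤ}
    (hPS : PS 1 k s ((p : ℤ) ^ T) (fun i => (p : ℤ) ^ a * x i) (fun i => (p : ℤ) ^ a * y i))
    (hT : h + k * a ≤ T) : PS 1 k s ((p : ℤ) ^ h) x y := by
  intro j hj1 hjk
  have h1 := hPS j hj1 hjk
  have hp0 : (p : ℤ) ≠ 0 := by exact_mod_cast (by omega : p ≠ 0)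
  have e : ∀ u : Fin s → ℤ, ∑ i, ((p : ℤ) ^ a * u i) ^ j = (p : ℤ) ^ (a * j) * ∑ i, u i ^ j := by
    intro u
    rw [Finset.mul_sum]
    refine Finset.sum_congr rfl fun i _ => ?_
    rw [mul_pow, ← pow_mul]
  beta_reduce at h1
  rw [e, e, ← mul_sub] at h1
  have h2 : (p : ℤ) ^ (a * j + h) ∣ (p : ℤ) ^ (a * j) * (∑ i, x i ^ j - ∑ i, y i ^ j) := by
    refine dvd_trans (pow_dvd_pow _ ?_) h1
    have : a * j ≤ k * a := by rw [mul_comm k a]; exact Nat.mul_le_mul_left _ hjk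
    omega
  rw [pow_add] at h2
  exact Int.dvd_of_mul_dvd_mul_left (pow_ne_zero _ hp0) h2

/-- preimage under an affine map. -/
noncomputable def pre (S : Finset ℤ) (c : ℤ) (q : ℕ) (hq : 1 ≤ q) : Finset ℤ :=
  S.preimage (fun z => c + q * z) (by
    intro x _ y _ h
    have hqz : (q : ℤ) ≠ 0 := by exact_mod_cast (by omega : q ≠ 0)
    have h' : (q : ℤ) * x = q * y := by
      have : c + (q : ℤ) * x = c + q * y := h
      linarith
    exact mul_left_cancel₀ hqz h')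

lemma mem_pre {S : Finset ℤ} {c : ℤ} {q : ℕ} {hq : 1 ≤ q} {z : ℤ} : z ∈ pre S c q hq ↔ c + q * z ∈ S := by
  unfold pre; rw [Finset.mem_preimage]

lemma sum_pre {M : Type} [AddCommMonoid M] (S : Finset ℤ) (c : ℤ) (q : ℕ) (hq : 1 ≤ q) (r : ℕ) (d : ℤ) (g : ℤ → M) :
    ∑ z ∈ cls r (pre S c q hq) d, g (c + q * z) = ∑ n ∈ cls (q * r) S (c + q * d), g n := by
  classical
  have hqz : (q : ℤ) ≠ 0 := by exact_mod_cast (by omega : q ≠ 0)
  refine Finset.sum_bij (fun z _ => c + q * z) ?_ ?_ ?_ ?_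
  · intro z hz
    rw [mem_cls, mem_pre] at hz
    rw [mem_cls]
    refine ⟨hz.1, ?_⟩
    have e : c + (q : ℤ) * z - (c + q * d) = q * (z - d) := by ring
    rw [e]
    push_cast
    exact mul_dvd_mul_left _ hz.2
  · intro z _ z' _ h
    have h' : (q : ℤ) * z = q * z' := by linarith
    exact mul_left_cancel₀ hqz h'
  · intro n hn
    rw [mem_cls] at hn
    obtain ⟨hS, t, ht⟩ := hn
    push_cast at ht
    refine ⟨d + r * t, ?_, ?_⟩
    · rw [mem_cls, mem_pre]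
      refine ⟨?_, ⟨t, by ring⟩⟩
      have : c + (q : ℤ) * (d + r * t) = n := by linarith
      rw [this]; exact hS
    · linarith
  · intro z _; rfl

lemma Sm_pre (S : Finset ℤ) (c : ℤ) (q : ℕ) (hq : 1 ≤ q) (r : ℕ) (d : ℤ) (F : ℤ → Ω → ℂ) :
    Sm (cls r (pre S c q hq) d) (fun z => F (c + q * z)) = Sm (cls (q * r) S (c + q * d)) F := by
  funext ω
  unfold Sm
  exact sum_pre S c q hq r d (fun n => F n ω)

/-- decoupling inside a class after rescaling. -/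
lemma dec_affine {p l h : ℕ} {K : ℝ} (hp : 1 ≤ p) (hDec : Dec Ω p l h K) (w : Ω → ℝ) (F : ℤ → Ω → ℂ) (S : Finset ℤ)
    (hw : ∀ ω, 0 ≤ w ω) (c : ℤ) (a : ℕ)
    (hOS : OS w (fun z => F (c + ((p ^ a : ℕ) : ℤ) * z)) (pre S c (p ^ a) (Nat.one_le_pow _ _ hp)) 1 l (sk l) ((p : ℤ) ^ (l * h))) :
    nm w (sk l) (Sm (cls (p ^ a) S c) F) ≤
      K * (∑ e ∈ range (p ^ h), nm w (sk l) (Sm (cls (p ^ (a + h)) S (c + (p : ℤ) ^ a * e)) F) ^ ((1 : ℝ) / sk l)) ^ sk l := by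
  have h1 := hDec w _ _ hw hOS
  have e0 : Sm (pre S c (p ^ a) (Nat.one_le_pow _ _ hp)) (fun z => F (c + ((p ^ a : ℕ) : ℤ) * z)) =
      Sm (cls (p ^ a) S c) F := by
    have := Sm_pre S c (p ^ a) (Nat.one_le_pow _ _ hp) 1 0 F
    rw [cls_one, mul_one, mul_zero, add_zero] at this
    exact this
  rw [e0] at h1
  refine h1.trans (le_of_eq ?_)
  congr 2
  refine Finset.sum_congr rfl fun e _ => ?_
  rw [Sm_pre, ← pow_add]
  push_cast
  rfl

/-- decoupling inside a class of a full system. -/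
lemma dec_cls {p k B a : ℕ} {K : ℝ} (hp : 1 ≤ p) (haB : a ≤ B) (hDec : Dec Ω p k (B - a) K) (w : Ω → ℝ)
    (F : ℤ → Ω → ℂ) (S : Finset ℤ) (hw : ∀ ω, 0 ≤ w ω) (hOS : OS w F S 1 k (sk k) ((p : ℤ) ^ (k * B))) (c : ℤ) :
    nm w (sk k) (Sm (cls (p ^ a) S c) F) ≤
      K * (∑ e ∈ range (p ^ (B - a)), nm w (sk k) (Sm (cls (p ^ B) S (c + (p : ℤ) ^ a * e)) F) ^ ((1 : ℝ) / sk k)) ^ sk k := by
  have h1 := dec_affine hp hDec w F S hw c a (by
    intro x y hx hy hn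
    refine hOS (fun i => c + ((p ^ a : ℕ) : ℤ) * x i) (fun i => c + ((p ^ a : ℕ) : ℤ) * y i)
      (fun i => mem_pre.1 (hx i)) (fun i => mem_pre.1 (hy i)) ?_
    intro hPS
    apply hn
    have h2 := hPS.trans c
    refine PS.dilate (a := a) (T := k * B) hp (x := x) (y := y) ?_ ?_
    · convert h2 using 2 <;> push_cast <;> ring
    · have : k * (B - a) + k * a = k * B := by rw [← mul_add]; congr 1; omega
      omega)
  have e : a + (B - a) = B := by omega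
  rw [e] at h1
  exact h1

end Pool.Agent.helper132_dc
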