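import Pool.Agent.helper132_dc.D2

/-! Transversality. -/

namespace Pool.Agent.helper132_dc

open Finset

variable {Ω : Type} [Fintype Ω]

lemma pow_sum_tup (C : Finset ℤ) (f : ℤ → ℂ) (t : ℕ) :
    (∑ n ∈ C, f n) ^ t = ∑ z ∈ Fintype.piFinset (fun _ : Fin t => C), ∏ i, f (z i) := by
  rw [← Finset.prod_univ_sum (fun _ : Fin t => C) (fun _ n => f n), Finset.prod_const, Finset.card_univ,
    Fintype.card_fin]

lemma transv {p k l t B b sl : ℕ} (w : Ω → ℝ) (F : ℤ → Ω → ℂ) (S : Finset ℤ)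
    (hOS : OS w F S 1 k (sl + t) ((p : ℤ) ^ (k * B))) (c' : ℤ) (hbB : (k - l + 1) * b ≤ k * B) :
    OS (fun ω => w ω * ‖Sm (cls (p ^ b) S c') F ω‖ ^ (2 * t)) (fun z => F (c' + ((1 : ℕ) : ℤ) * z))
      (pre S c' 1 le_rfl) (k - l + 1) k sl ((p : ℤ) ^ ((k - l + 1) * b)) := by
  classical
  obtain ⟨C, hC⟩ : ∃ C, C = cls (p ^ b) S c' := ⟨_, rfl⟩
  rw [← hC]
  intro x y hx hy hn
  have e1 : ∀ ω, (((w ω * ‖Sm C F ω‖ ^ (2 * t) : ℝ)) : ℂ) *
      ((∏ i, F (c' + ((1 : ℕ) : ℤ) * x i) ω) * ∏ i, (starRingEnd ℂ) (F (c' + ((1 : ℕ) : ℤ) * y i) ω)) =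
      ∑ z ∈ Fintype.piFinset (fun _ : Fin t => C), ∑ z' ∈ Fintype.piFinset (fun _ : Fin t => C),
        (w ω : ℂ) * ((∏ i, F (Fin.append (fun i => c' + ((1 : ℕ) : ℤ) * x i) z i) ω) *
          ∏ i, (starRingEnd ℂ) (F (Fin.append (fun i => c' + ((1 : ℕ) : ℤ) * y i) z' i) ω)) := by
    intro ω
    have h1 : (((‖Sm C F ω‖ ^ (2 * t) : ℝ)) : ℂ) = (Sm C F ω) ^ t * ((starRingEnd ℂ) (Sm C F ω)) ^ t := by
      rw [← mul_pow, Complex.mul_conj', pow_mul]
      push_cast
      rfl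
    rw [Complex.ofReal_mul, h1]
    unfold Sm
    rw [map_sum, pow_sum_tup C (fun n => F n ω) t, pow_sum_tup C (fun n => (starRingEnd ℂ) (F n ω)) t,
      Finset.sum_mul_sum, Finset.mul_sum, Finset.sum_mul]
    refine Finset.sum_congr rfl fun z _ => ?_
    rw [Finset.mul_sum, Finset.sum_mul]
    refine Finset.sum_congr rfl fun z' _ => ?_
    rw [Fin.prod_univ_add, Fin.prod_univ_add]
    simp only [Fin.append_left, Fin.append_right]
    ring
  rw [Finset.sum_congr rfl fun ω _ => e1 ω, Finset.sum_comm]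
  refine Finset.sum_eq_zero fun z hz => ?_
  rw [Finset.sum_comm]
  refine Finset.sum_eq_zero fun z' hz' => ?_
  rw [Fintype.mem_piFinset] at hz hz'
  refine hOS _ _ ?_ ?_ ?_
  · intro i
    refine Fin.addCases (fun i => ?_) (fun i => ?_) i
    · rw [Fin.append_left]; exact mem_pre.1 (hx i)
    · rw [Fin.append_right]
      have := hz i
      rw [hC] at this
      exact cls_sub _ _ _ this
  · intro i
    refine Fin.addCases (fun i => ?_) (fun i => ?_) i
    · rw [Fin.append_left]; exact mem_pre.1 (hy i)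
    · rw [Fin.append_right]
      have := hz' i
      rw [hC] at this
      exact cls_sub _ _ _ this
  · intro hPS
    apply hn
    intro j hj1 hjk
    have h2 := hPS.trans c' j (by omega) hjk
    beta_reduce at h2
    rw [Fin.sum_univ_add, Fin.sum_univ_add] at h2
    simp only [Fin.append_left, Fin.append_right] at h2
    have h3 : (p : ℤ) ^ ((k - l + 1) * b) ∣ ∑ i, (z i - c') ^ j := by
      refine Finset.dvd_sum fun i _ => ?_
      have h4 := hz i
      rw [hC, mem_cls] at h4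
      have h5 := pow_dvd_pow_of_dvd h4.2 j
      refine dvd_trans ?_ h5
      push_cast
      rw [← pow_mul]
      refine pow_dvd_pow _ ?_
      rw [mul_comm b j]
      exact Nat.mul_le_mul_right _ hj1
    have h3' : (p : ℤ) ^ ((k - l + 1) * b) ∣ ∑ i, (z' i - c') ^ j := by
      refine Finset.dvd_sum fun i _ => ?_
      have h4 := hz' i
      rw [hC, mem_cls] at h4
      have h5 := pow_dvd_pow_of_dvd h4.2 j
      refine dvd_trans ?_ h5
      push_cast
      rw [← pow_mul]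
      refine pow_dvd_pow _ ?_
      rw [mul_comm b j]
      exact Nat.mul_le_mul_right _ hj1
    have h6 : (p : ℤ) ^ ((k - l + 1) * b) ∣
        (∑ i, (c' + ((1 : ℕ) : ℤ) * x i - c') ^ j + ∑ i, (z i - c') ^ j) -
        (∑ i, (c' + ((1 : ℕ) : ℤ) * y i - c') ^ j + ∑ i, (z' i - c') ^ j) :=
      dvd_trans (pow_dvd_pow _ hbB) h2
    have e2 : ∀ u : Fin sl → ℤ, ∑ i, (c' + ((1 : ℕ) : ℤ) * u i - c') ^ j = ∑ i, u i ^ j := by
      intro u
      refine Finset.sum_congr rfl fun i _ => ?_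
      congr 1
      push_cast; ring
    rw [e2, e2] at h6
    have h7 := dvd_add (dvd_sub h6 h3) h3'
    have e3 : (∑ i, x i ^ j + ∑ i, (z i - c') ^ j - (∑ i, y i ^ j + ∑ i, (z' i - c') ^ j)) -
        ∑ i, (z i - c') ^ j + ∑ i, (z' i - c') ^ j = ∑ i, x i ^ j - ∑ i, y i ^ j := by ring
    rwa [e3] at h7

end Pool.Agent.helper132_dc
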