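import Pool.Agent.helper132_dc.D3

/-! Inversion of binomial systems. -/

namespace Pool.Agent.helper132_dc

open Finset

variable {Ω : Type} [Fintype Ω]

lemma det_choose {n : ℕ} (v : Fin n → ℕ) :
    (∏ j : Fin n, ((j : ℕ).factorial : ℤ)) * (Matrix.of fun i j : Fin n => ((v i).choose j : ℤ)).det =
      ∏ i : Fin n, ∏ j ∈ Finset.Ioi i, ((v j : ℤ) - v i) := by
  rw [← Matrix.det_mul_row, ← Matrix.det_vandermonde,
    Matrix.det_eval_matrixOfPolynomials_eq_det_vandermonde (fun i : Fin n => (v i : ℤ)) (fun j => descPochhammer ℤ j)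
    (fun i => descPochhammer_natDegree ℤ i) (fun i => monic_descPochhammer ℤ i)]
  congr 1
  ext i j
  simp only [Matrix.of_apply]
  rw [descPochhammer_eval_eq_descFactorial, Nat.descFactorial_eq_factorial_mul_choose]
  push_cast
  ring

lemma inv_core {p k l T : ℕ} (hp : p.Prime) (hpk : k < p) (hl : l ≤ k) (W : ℕ → ℤ) (hW0 : (p : ℤ) ^ T ∣ W 0)
    (hW : ∀ j, k - l + 1 ≤ j → j ≤ k → (p : ℤ) ^ T ∣ ∑ r ∈ range (l + 1), (j.choose r : ℤ) * W r) :
    ∀ r ≤ l, (p : ℤ) ^ T ∣ W r := by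
  classical
  obtain ⟨v, hv⟩ : ∃ v : Fin (l + 1) → ℕ, v = fun i : Fin (l + 1) => if (i : ℕ) = 0 then 0 else k - l + (i : ℕ) := ⟨_, rfl⟩
  have hvk : ∀ i, v i ≤ k := by
    intro i
    have := i.isLt
    rw [hv]; beta_reduce
    split_ifs <;> omega
  have hvlt : ∀ i j : Fin (l + 1), i < j → v i < v j := by
    intro i j hij
    have hij' : (i : ℕ) < j := hij
    rw [hv]; beta_reduce
    split_ifs <;> omega
  obtain ⟨M, hM⟩ : ∃ M : Matrix (Fin (l + 1)) (Fin (l + 1)) ℤ, M = Matrix.of fun i j : Fin (l + 1) => ((v i).choose (j : ℕ) : ℤ) := ⟨_, rfl⟩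
  have hdet := det_choose v
  rw [← hM] at hdet
  have hpz : Prime (p : ℤ) := Nat.prime_iff_prime_int.1 hp
  have hndvd : ¬ (p : ℤ) ∣ M.det := by
    intro h
    have h1 : (p : ℤ) ∣ ∏ i : Fin (l + 1), ∏ j ∈ Finset.Ioi i, ((v j : ℤ) - v i) := by
      rw [← hdet]; exact Dvd.dvd.mul_left h _
    obtain ⟨i, _, h2⟩ := (Prime.dvd_finsetProd_iff hpz _).1 h1
    obtain ⟨j, hj, h3⟩ := (Prime.dvd_finsetProd_iff hpz _).1 h2
    rw [Finset.mem_Ioi] at hj
    have h4 := hvlt i j hj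
    have h5 := hvk j
    have h6 := Int.le_of_dvd (by omega) h3
    omega
  have hcop : IsCoprime ((p : ℤ) ^ T) M.det := by
    refine IsCoprime.pow_left ?_
    exact (Prime.coprime_iff_not_dvd hpz).2 hndvd
  obtain ⟨u, hu⟩ : ∃ u : Fin (l + 1) → ℤ, u = fun j : Fin (l + 1) => W (j : ℕ) := ⟨_, rfl⟩
  have hMu : ∀ i, (p : ℤ) ^ T ∣ M.mulVec u i := by
    intro i
    have e1 : M.mulVec u i = ∑ r ∈ range (l + 1), ((v i).choose r : ℤ) * W r := by
      rw [Matrix.mulVec, dotProduct, Finset.sum_range, hM, hu]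
      rfl
    rw [e1]
    by_cases h0 : (i : ℕ) = 0
    · have hv0 : v i = 0 := by rw [hv]; beta_reduce; rw [if_pos h0]
      rw [hv0, Finset.sum_eq_single 0]
      · simpa using hW0
      · intro b _ hb
        rw [Nat.choose_eq_zero_of_lt (by omega)]
        simp
      · intro h; simp at h
    · have hv1 : v i = k - l + i := by rw [hv]; beta_reduce; rw [if_neg h0]
      exact hW (v i) (by rw [hv1]; omega) (hvk i)
  intro r hr
  have h1 : M.adjugate.mulVec (M.mulVec u) = M.det • u := by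
    rw [Matrix.mulVec_mulVec, Matrix.adjugate_mul, Matrix.smul_mulVec, Matrix.one_mulVec]
  have h2 : (p : ℤ) ^ T ∣ M.det * W r := by
    have h3 := congrFun h1 ⟨r, by omega⟩
    have h4 : (M.det • u) ⟨r, by omega⟩ = M.det * W r := by
      rw [hu]; rfl
    rw [h4] at h3
    rw [← h3, Matrix.mulVec, dotProduct]
    exact Finset.dvd_sum fun i _ => Dvd.dvd.mul_left (hMu i) _
  exact hcop.dvd_of_dvd_mul_left h2

/-- the inner system implies the lower degree moment system. -/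
lemma ps_lower {p k l a h T s : ℕ} (hp : p.Prime) (hpk : k < p) (hl : l ≤ k) (hlh : l * h ≤ a) (hT : l * (a + h) ≤ T)
    (c : ℤ) (hc : ¬ (p : ℤ) ∣ c) (x y : Fin s → ℤ)
    (hPS : PS (k - l + 1) k s ((p : ℤ) ^ T) (fun i => c + ((p ^ a : ℕ) : ℤ) * x i) (fun i => c + ((p ^ a : ℕ) : ℤ) * y i)) :
    PS 1 l s ((p : ℤ) ^ (l * h)) x y := by
  classical
  have hpz : Prime (p : ℤ) := Nat.prime_iff_prime_int.1 hp
  have hp0 : (p : ℤ) ≠ 0 := hpz.ne_zero
  obtain ⟨P, hP⟩ : ∃ P : ℕ → ℤ, P = fun r => ∑ i, x i ^ r - ∑ i, y i ^ r := ⟨_, rfl⟩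
  obtain ⟨D, hD⟩ : ∃ D, D = l * (a + h) := ⟨_, rfl⟩
  rw [← hD] at hT
  have hDa : D ≤ a * (l + 1) := by
    rw [hD]
    calc l * (a + h) = l * a + l * h := by ring
      _ ≤ l * a + a := by omega
      _ = a * (l + 1) := by ring
  obtain ⟨W, hW⟩ : ∃ W : ℕ → ℤ, W = fun r => c ^ (l - r) * ((p : ℤ) ^ (a * r) * P r) := ⟨_, rfl⟩
  have hccop : IsCoprime ((p : ℤ) ^ D) c := by
    refine IsCoprime.pow_left ?_
    exact (Prime.coprime_iff_not_dvd hpz).2 hc
  have hinv := inv_core (T := D) hp hpk hl W (by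
    rw [hW, hP]; simp) (by
    intro j hj1 hjk
    have h1 := hPS j hj1 hjk
    rw [aff_ps] at h1
    have h2 : (p : ℤ) ^ D ∣ ∑ r ∈ range (j + 1), (j.choose r : ℤ) * c ^ (j - r) * ((p ^ a : ℕ) : ℤ) ^ r * (∑ i, x i ^ r - ∑ i, y i ^ r) :=
      dvd_trans (pow_dvd_pow _ hT) h1
    -- discard the terms with r > l, add the terms with choose = 0
    have h3 : (p : ℤ) ^ D ∣ ∑ r ∈ range (l + 1), (j.choose r : ℤ) * c ^ (j - r) * ((p : ℤ) ^ (a * r) * P r) := by
      obtain ⟨G, hG⟩ : ∃ G : ℕ → ℤ, G = fun r => (j.choose r : ℤ) * c ^ (j - r) * ((p : ℤ) ^ (a * r) * P r) := ⟨_, rfl⟩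
      have hG1 : ∑ r ∈ range (j + 1), (j.choose r : ℤ) * c ^ (j - r) * ((p ^ a : ℕ) : ℤ) ^ r * (∑ i, x i ^ r - ∑ i, y i ^ r) =
          ∑ r ∈ range (j + 1), G r := by
        refine Finset.sum_congr rfl fun r _ => ?_
        rw [hG, hP]
        push_cast
        rw [pow_mul]; ring
      rw [hG1] at h2
      have hG2 : ∑ r ∈ range (l + 1), (j.choose r : ℤ) * c ^ (j - r) * ((p : ℤ) ^ (a * r) * P r) = ∑ r ∈ range (l + 1), G r := by
        rw [hG]
      rw [hG2]
      obtain ⟨m, hm⟩ : ∃ m, m = max (j + 1) (l + 1) := ⟨_, rfl⟩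
      have hA : ∑ r ∈ range m, G r = ∑ r ∈ range (j + 1), G r := by
        symm
        refine Finset.sum_subset (Finset.range_subset_range.2 (by omega)) ?_
        intro r _ hr
        rw [Finset.mem_range, not_lt] at hr
        rw [hG]; beta_reduce
        rw [Nat.choose_eq_zero_of_lt (by omega)]
        simp
      have hB : ∑ r ∈ range m, G r = ∑ r ∈ range (l + 1), G r + ∑ r ∈ Ico (l + 1) m, G r := by
        rw [Finset.range_eq_Ico, Finset.range_eq_Ico]
        exact (Finset.sum_Ico_consecutive G (Nat.zero_le _) (by omega)).symm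
      have hC : (p : ℤ) ^ D ∣ ∑ r ∈ Ico (l + 1) m, G r := by
        refine Finset.dvd_sum fun r hr => ?_
        rw [Finset.mem_Ico] at hr
        rw [hG]; beta_reduce
        refine Dvd.dvd.mul_left (Dvd.dvd.mul_right (pow_dvd_pow _ ?_) _) _
        exact hDa.trans (Nat.mul_le_mul_left _ hr.1)
      rw [← hA, hB] at h2
      exact (Int.dvd_add_left hC).1 h2
    have h4 : (p : ℤ) ^ D ∣ c ^ l * ∑ r ∈ range (l + 1), (j.choose r : ℤ) * c ^ (j - r) * ((p : ℤ) ^ (a * r) * P r) :=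
      Dvd.dvd.mul_left h3 _
    have h5 : c ^ l * ∑ r ∈ range (l + 1), (j.choose r : ℤ) * c ^ (j - r) * ((p : ℤ) ^ (a * r) * P r) =
        c ^ j * ∑ r ∈ range (l + 1), (j.choose r : ℤ) * W r := by
      rw [Finset.mul_sum, Finset.mul_sum]
      refine Finset.sum_congr rfl fun r hr => ?_
      rw [Finset.mem_range] at hr
      rw [hW]; beta_reduce
      rcases lt_or_ge j r with hjr | hjr
      · rw [Nat.choose_eq_zero_of_lt hjr]; simp
      · have e1 : c ^ l * c ^ (j - r) = c ^ j * c ^ (l - r) := by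
          rw [← pow_add, ← pow_add]; congr 1; omega
        calc c ^ l * ((j.choose r : ℤ) * c ^ (j - r) * ((p : ℤ) ^ (a * r) * P r)) =
              (c ^ l * c ^ (j - r)) * ((j.choose r : ℤ) * ((p : ℤ) ^ (a * r) * P r)) := by ring
          _ = _ := by rw [e1]; ring
    rw [h5] at h4
    exact (IsCoprime.pow_right hccop).dvd_of_dvd_mul_left h4)
  intro j hj1 hjl
  have h1 := hinv j hjl
  rw [hW] at h1
  beta_reduce at h1
  have h2 : (p : ℤ) ^ D ∣ (p : ℤ) ^ (a * j) * P j := (IsCoprime.pow_right hccop).dvd_of_dvd_mul_left h1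
  have h3 : (p : ℤ) ^ (a * j + l * h) ∣ (p : ℤ) ^ (a * j) * P j := by
    refine dvd_trans (pow_dvd_pow _ ?_) h2
    rw [hD]
    calc a * j + l * h ≤ a * l + l * h := by
          have := Nat.mul_le_mul_left a hjl
          omega
      _ = l * (a + h) := by ring
  rw [pow_add] at h3
  have h4 := Int.dvd_of_mul_dvd_mul_left (pow_ne_zero _ hp0) h3
  rw [hP] at h4
  exact h4

end Pool.Agent.helper132_dc
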