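import Pool.Agent.helper132_dc.D4

/-! Decoupling for the inner system. -/

namespace Pool.Agent.helper132_dc

open Finset

variable {Ω : Type} [Fintype Ω]

lemma comb {ι : Type} (I : Finset ι) (s : ℕ) (hs : 1 ≤ s) (K : ℝ) (hK : 0 ≤ K) (x T : ι → ℝ)
    (hx : ∀ i ∈ I, 0 ≤ x i) (hT : ∀ i ∈ I, 0 ≤ T i) (h : ∀ i ∈ I, x i ≤ K * T i ^ s) :
    (∑ i ∈ I, x i ^ ((1 : ℝ) / s)) ^ s ≤ K * (∑ i ∈ I, T i) ^ s := by
  have h1 : ∀ i ∈ I, x i ^ ((1 : ℝ) / s) ≤ K ^ ((1 : ℝ) / s) * T i := by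
    intro i hi
    calc x i ^ ((1 : ℝ) / s) ≤ (K * T i ^ s) ^ ((1 : ℝ) / s) :=
          Real.rpow_le_rpow (hx i hi) (h i hi) (by positivity)
      _ = K ^ ((1 : ℝ) / s) * T i := by
          rw [Real.mul_rpow hK (pow_nonneg (hT i hi) _), one_div, Real.pow_rpow_inv_natCast (hT i hi) (by omega)]
  have h2 : ∑ i ∈ I, x i ^ ((1 : ℝ) / s) ≤ K ^ ((1 : ℝ) / s) * ∑ i ∈ I, T i := by
    rw [Finset.mul_sum]; exact Finset.sum_le_sum h1
  calc (∑ i ∈ I, x i ^ ((1 : ℝ) / s)) ^ s ≤ (K ^ ((1 : ℝ) / s) * ∑ i ∈ I, T i) ^ s :=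
        pow_le_pow_left₀ (Finset.sum_nonneg fun i hi => Real.rpow_nonneg (hx i hi) _) h2 _
    _ = K * (∑ i ∈ I, T i) ^ s := by
        rw [mul_pow, one_div, Real.rpow_inv_natCast_pow hK (by omega)]

/-- one step. -/
lemma inner_step {p k l M a h : ℕ} (hp : p.Prime) (hpk : k < p) (hl : l ≤ k) (K : ℝ) (hDec : Dec Ω p l h K)
    (w : Ω → ℝ) (F : ℤ → Ω → ℂ) (S : Finset ℤ) (hw : ∀ ω, 0 ≤ w ω)
    (hOS : OS w F S (k - l + 1) k (sk l) ((p : ℤ) ^ M)) (hlh : l * h ≤ a) (hM : l * (a + h) ≤ M)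
    (c : ℤ) (hc : ¬ (p : ℤ) ∣ c) :
    nm w (sk l) (Sm (cls (p ^ a) S c) F) ≤
      K * (∑ e ∈ range (p ^ h), nm w (sk l) (Sm (cls (p ^ (a + h)) S (c + (p : ℤ) ^ a * e)) F) ^ ((1 : ℝ) / sk l)) ^ sk l := by
  refine dec_affine hp.one_lt.le hDec w F S hw c a ?_
  intro x y hx hy hn
  refine hOS (fun i => c + ((p ^ a : ℕ) : ℤ) * x i) (fun i => c + ((p ^ a : ℕ) : ℤ) * y i)
      (fun i => mem_pre.1 (hx i)) (fun i => mem_pre.1 (hy i)) ?_
  intro hPS
  exact hn (ps_lower hp hpk hl hlh hM c hc x y hPS)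

/-- decoupling for the inner system. -/
lemma inner_dec {p k l M : ℕ} (hp : p.Prime) (hpk : k < p) (hl : l ≤ k) (hl1 : 1 ≤ l) (C ε : ℝ) (hC : 1 ≤ C)
    (hDec : ∀ h : ℕ, Dec Ω p l h (C * (p : ℝ) ^ (ε * h)))
    (w : Ω → ℝ) (F : ℤ → Ω → ℂ) (S : Finset ℤ) (hw : ∀ ω, 0 ≤ w ω)
    (hOS : OS w F S (k - l + 1) k (sk l) ((p : ℤ) ^ M)) :
    ∀ (n a b : ℕ), l ≤ a → a ≤ b → l * b ≤ M → (b : ℝ) ≤ a * (1 + 1 / (2 * (l : ℝ))) ^ n → ∀ c : ℤ, ¬ (p : ℤ) ∣ c →
    nm w (sk l) (Sm (cls (p ^ a) S c) F) ≤ (C ^ n * (p : ℝ) ^ (ε * ((b - a : ℕ) : ℝ))) *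
      (∑ e ∈ range (p ^ (b - a)), nm w (sk l) (Sm (cls (p ^ b) S (c + (p : ℤ) ^ a * e)) F) ^ ((1 : ℝ) / sk l)) ^ sk l := by
  have hp0 : (0 : ℝ) < p := by exact_mod_cast hp.pos
  have hp1 : (1 : ℝ) ≤ p := by exact_mod_cast hp.one_lt.le
  have hl0 : (0 : ℝ) < l := by exact_mod_cast hl1
  have hs1 := sk_pos l hl1
  intro n
  induction n with
  | zero =>
    intro a b hla hab hbM hb c hc
    rw [pow_zero, mul_one] at hb
    have hb' : b ≤ a := by exact_mod_cast hb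
    have hba : b = a := by omega
    subst hba
    rw [Nat.sub_self, pow_zero, pow_zero, Finset.sum_range_one]
    simp only [Nat.cast_zero, mul_zero, add_zero, Real.rpow_zero, mul_one, one_mul]
    rw [one_div, Real.rpow_inv_natCast_pow (nm_nonneg hw _ _) (by omega)]
  | succ n ih =>
    intro a b hla hab hbM hb c hc
    rcases le_or_gt b (a + a / l) with hcase | hcase
    · have hlh : l * (b - a) ≤ a := by
        calc l * (b - a) ≤ l * (a / l) := Nat.mul_le_mul_left _ (by omega)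
          _ ≤ a := Nat.mul_div_le _ _
      have e : a + (b - a) = b := by omega
      have h1 := inner_step hp hpk hl _ (hDec (b - a)) w F S hw hOS hlh (by rw [e]; exact hbM) c hc
      rw [e] at h1
      refine h1.trans (mul_le_mul_of_nonneg_right ?_ ?_)
      · refine mul_le_mul_of_nonneg_right ?_ (by positivity)
        exact le_self_pow₀ hC (by omega)
      · exact pow_nonneg (Finset.sum_nonneg fun _ _ => Real.rpow_nonneg (nm_nonneg hw _ _) _) _
    · obtain ⟨h, hh⟩ : ∃ h, h = a / l := ⟨_, rfl⟩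
      rw [← hh] at hcase
      have hlh : l * h ≤ a := by rw [hh]; exact Nat.mul_div_le _ _
      have h1 := inner_step hp hpk hl _ (hDec h) w F S hw hOS hlh
        ((Nat.mul_le_mul_left _ hcase.le).trans hbM) c hc
      refine h1.trans ?_
      have hh1 : 1 ≤ h := by
        rw [hh]; exact Nat.div_pos hla hl1
      have hh2 : (a : ℝ) / (2 * l) ≤ h := by
        have h2 : a < l * (h + 1) := by rw [hh]; exact Nat.lt_mul_div_succ a hl1
        have h3 : (a : ℝ) < l * (h + 1) := by exact_mod_cast h2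
        have h4 : (1 : ℝ) ≤ h := by exact_mod_cast hh1
        rw [div_le_iff₀ (by positivity)]
        nlinarith
      have hb2 : (b : ℝ) ≤ ((a + h : ℕ) : ℝ) * (1 + 1 / (2 * (l : ℝ))) ^ n := by
        refine hb.trans ?_
        rw [pow_succ']
        rw [← mul_assoc]
        refine mul_le_mul_of_nonneg_right ?_ (by positivity)
        push_cast
        have : (a : ℝ) * (1 + 1 / (2 * l)) = a + a / (2 * l) := by ring
        rw [this]; linarith
      have hz : ∀ e : ℕ, ¬ (p : ℤ) ∣ c + (p : ℤ) ^ a * e := by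
        intro e hd
        apply hc
        have h2 : (p : ℤ) ∣ (p : ℤ) ^ a * e := Dvd.dvd.mul_right (dvd_pow_self _ (by omega)) _
        exact (Int.dvd_add_left h2).1 hd
      have ihh := fun e : ℕ => ih (a + h) b (by omega) hcase.le hbM hb2 (c + (p : ℤ) ^ a * e) (hz e)
      have hc2 := comb (range (p ^ h)) (sk l) hs1 (C ^ n * (p : ℝ) ^ (ε * ((b - (a + h) : ℕ) : ℝ))) (by positivity)
        (fun e : ℕ => nm w (sk l) (Sm (cls (p ^ (a + h)) S (c + (p : ℤ) ^ a * e)) F))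
        (fun e : ℕ => ∑ e' ∈ range (p ^ (b - (a + h))), nm w (sk l) (Sm (cls (p ^ b) S (c + (p : ℤ) ^ a * e +
          (p : ℤ) ^ (a + h) * e')) F) ^ ((1 : ℝ) / sk l))
        (fun _ _ => nm_nonneg hw _ _)
        (fun _ _ => Finset.sum_nonneg fun _ _ => Real.rpow_nonneg (nm_nonneg hw _ _) _) (fun e _ => ihh e)
      have hdig : ∑ e ∈ range (p ^ h), ∑ e' ∈ range (p ^ (b - (a + h))), nm w (sk l) (Sm (cls (p ^ b) S (c + (p : ℤ) ^ a * e +
          (p : ℤ) ^ (a + h) * e')) F) ^ ((1 : ℝ) / sk l) =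
          ∑ e ∈ range (p ^ (b - a)), nm w (sk l) (Sm (cls (p ^ b) S (c + (p : ℤ) ^ a * e)) F) ^ ((1 : ℝ) / sk l) := by
        have e1 : p ^ (b - a) = p ^ h * p ^ (b - (a + h)) := by rw [← pow_add]; congr 1; omega
        rw [e1, sum_digits]
        refine Finset.sum_congr rfl fun e _ => Finset.sum_congr rfl fun e' _ => ?_
        congr 4
        push_cast
        rw [pow_add]; ring
      rw [hdig] at hc2
      calc _ ≤ (C * (p : ℝ) ^ (ε * (h : ℝ))) * ((C ^ n * (p : ℝ) ^ (ε * ((b - (a + h) : ℕ) : ℝ))) *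
            (∑ e ∈ range (p ^ (b - a)), nm w (sk l) (Sm (cls (p ^ b) S (c + (p : ℤ) ^ a * e)) F) ^ ((1 : ℝ) / sk l)) ^ sk l) :=
            mul_le_mul_of_nonneg_left hc2 (by positivity)
        _ = _ := by
            have e2 : (p : ℝ) ^ (ε * ((b - a : ℕ) : ℝ)) = (p : ℝ) ^ (ε * (h : ℝ)) * (p : ℝ) ^ (ε * ((b - (a + h) : ℕ) : ℝ)) := by
              rw [← Real.rpow_add hp0, ← mul_add]
              congr 2
              have : b - a = h + (b - (a + h)) := by omega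
              rw [this]; push_cast; ring
            rw [e2, pow_succ]; ring

end Pool.Agent.helper132_dc
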