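import Pool.Agent.helper132_dc.D5

/-! Bilinear quantities. -/

namespace Pool.Agent.helper132_dc

open Finset

variable {Ω : Type} [Fintype Ω]

/-- Hölder's inequality with weights. -/
lemma holder_w (w X Y : Ω → ℝ) (hw : ∀ ω, 0 ≤ w ω) (hX : ∀ ω, 0 ≤ X ω) (hY : ∀ ω, 0 ≤ Y ω) (θ : ℝ) (hθ0 : 0 < θ)
    (hθ1 : θ < 1) : ∑ ω, w ω * (X ω ^ θ * Y ω ^ (1 - θ)) ≤ (∑ ω, w ω * X ω) ^ θ * (∑ ω, w ω * Y ω) ^ (1 - θ) := by
  have h1θ : 0 < 1 - θ := by linarith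
  have hconj : (1 / θ).HolderConjugate (1 / (1 - θ)) := by
    rw [Real.holderConjugate_iff]
    constructor
    · rw [lt_div_iff₀ hθ0]; linarith
    · rw [one_div, one_div, inv_inv, inv_inv]; ring
  have h := Real.inner_le_Lp_mul_Lq_of_nonneg Finset.univ hconj (f := fun ω => (w ω * X ω) ^ θ)
    (g := fun ω => (w ω * Y ω) ^ (1 - θ)) (fun ω _ => Real.rpow_nonneg (mul_nonneg (hw ω) (hX ω)) _)
    (fun ω _ => Real.rpow_nonneg (mul_nonneg (hw ω) (hY ω)) _)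
  have e1 : ∀ ω, (w ω * X ω) ^ θ * (w ω * Y ω) ^ (1 - θ) = w ω * (X ω ^ θ * Y ω ^ (1 - θ)) := by
    intro ω
    rw [Real.mul_rpow (hw ω) (hX ω), Real.mul_rpow (hw ω) (hY ω)]
    have : w ω ^ θ * w ω ^ (1 - θ) = w ω := by
      rw [← Real.rpow_add_of_nonneg (hw ω) hθ0.le h1θ.le]
      have : θ + (1 - θ) = 1 := by ring
      rw [this, Real.rpow_one]
    calc w ω ^ θ * X ω ^ θ * (w ω ^ (1 - θ) * Y ω ^ (1 - θ)) = (w ω ^ θ * w ω ^ (1 - θ)) * (X ω ^ θ * Y ω ^ (1 - θ)) := by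
          ring
      _ = _ := by rw [this]
  have e2 : ∀ ω, ((w ω * X ω) ^ θ) ^ (1 / θ) = w ω * X ω := by
    intro ω
    rw [← Real.rpow_mul (mul_nonneg (hw ω) (hX ω)), mul_one_div, div_self hθ0.ne', Real.rpow_one]
  have e3 : ∀ ω, ((w ω * Y ω) ^ (1 - θ)) ^ (1 / (1 - θ)) = w ω * Y ω := by
    intro ω
    rw [← Real.rpow_mul (mul_nonneg (hw ω) (hY ω)), mul_one_div, div_self h1θ.ne', Real.rpow_one]
  simp only [e1, e2, e3, one_div_one_div] at h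
  exact h

lemma pow_interp (a θ : ℝ) (ha : 0 ≤ a) (hθ0 : 0 < θ) (hθ1 : θ < 1) (m m1 m2 : ℕ)
    (hm : (m : ℝ) = θ * m1 + (1 - θ) * m2) : a ^ m = (a ^ m1) ^ θ * (a ^ m2) ^ (1 - θ) := by
  rw [← Real.rpow_natCast a m, ← Real.rpow_natCast a m1, ← Real.rpow_natCast a m2, ← Real.rpow_mul ha,
    ← Real.rpow_mul ha, ← Real.rpow_add_of_nonneg ha (by positivity) (mul_nonneg (Nat.cast_nonneg _) (by linarith)), hm]
  congr 1
  ring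

lemma interp (w : Ω → ℝ) (hw : ∀ ω, 0 ≤ w ω) (u v : Ω → ℝ) (hu : ∀ ω, 0 ≤ u ω) (hv : ∀ ω, 0 ≤ v ω) (θ : ℝ)
    (hθ0 : 0 < θ) (hθ1 : θ < 1) (m m1 m2 n n1 n2 : ℕ) (hm : (m : ℝ) = θ * m1 + (1 - θ) * m2)
    (hn : (n : ℝ) = θ * n1 + (1 - θ) * n2) :
    ∑ ω, w ω * (u ω ^ m * v ω ^ n) ≤
      (∑ ω, w ω * (u ω ^ m1 * v ω ^ n1)) ^ θ * (∑ ω, w ω * (u ω ^ m2 * v ω ^ n2)) ^ (1 - θ) := by
  have h := holder_w w (fun ω => u ω ^ m1 * v ω ^ n1) (fun ω => u ω ^ m2 * v ω ^ n2) hw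
    (fun ω => mul_nonneg (pow_nonneg (hu ω) _) (pow_nonneg (hv ω) _))
    (fun ω => mul_nonneg (pow_nonneg (hu ω) _) (pow_nonneg (hv ω) _)) θ hθ0 hθ1
  refine le_trans (le_of_eq ?_) h
  refine Finset.sum_congr rfl fun ω _ => ?_
  rw [Real.mul_rpow (pow_nonneg (hu ω) _) (pow_nonneg (hv ω) _),
    Real.mul_rpow (pow_nonneg (hu ω) _) (pow_nonneg (hv ω) _),
    pow_interp (u ω) θ (hu ω) hθ0 hθ1 m m1 m2 hm, pow_interp (v ω) θ (hv ω) hθ0 hθ1 n n1 n2 hn]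
  ring

/-- class sums. -/
noncomputable def fa (p : ℕ) (F : ℤ → Ω → ℂ) (S : Finset ℤ) (a : ℕ) (c : ℤ) : Ω → ℂ := Sm (cls (p ^ a) S c) F

/-- bilinear quantity. -/
noncomputable def BI (p k : ℕ) (w : Ω → ℝ) (F : ℤ → Ω → ℂ) (S : Finset ℤ) (l a : ℕ) (c : ℤ) (b : ℕ) (c' : ℤ) : ℝ :=
  ∑ ω, w ω * (‖fa p F S a c ω‖ ^ (2 * sk l) * ‖fa p F S b c' ω‖ ^ (2 * (sk k - sk l)))

/-- the right hand side for a class. -/
noncomputable def Nn (p k B : ℕ) (w : Ω → ℝ) (F : ℤ → Ω → ℂ) (S : Finset ℤ) (a : ℕ) (c : ℤ) : ℝ :=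
  ∑ d ∈ range (p ^ (B - a)), nm w (sk k) (fa p F S B (c + (p : ℤ) ^ a * d)) ^ ((1 : ℝ) / sk k)

lemma BI_nonneg {p k : ℕ} {w : Ω → ℝ} (hw : ∀ ω, 0 ≤ w ω) (F : ℤ → Ω → ℂ) (S : Finset ℤ) (l a : ℕ) (c : ℤ) (b : ℕ) (c' : ℤ) :
    0 ≤ BI p k w F S l a c b c' := Finset.sum_nonneg fun ω _ => mul_nonneg (hw ω) (by positivity)

lemma Nn_nonneg {p k B : ℕ} {w : Ω → ℝ} (hw : ∀ ω, 0 ≤ w ω) (F : ℤ → Ω → ℂ) (S : Finset ℤ) (a : ℕ) (c : ℤ) :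
    0 ≤ Nn p k B w F S a c := Finset.sum_nonneg fun _ _ => Real.rpow_nonneg (nm_nonneg hw _ _) _

lemma Nn_split {p k B a b : ℕ} (hab : a ≤ b) (hbB : b ≤ B) (w : Ω → ℝ) (F : ℤ → Ω → ℂ) (S : Finset ℤ) (c : ℤ) :
    ∑ e ∈ range (p ^ (b - a)), Nn p k B w F S b (c + (p : ℤ) ^ a * e) = Nn p k B w F S a c := by
  unfold Nn
  have e1 : p ^ (B - a) = p ^ (b - a) * p ^ (B - b) := by rw [← pow_add]; congr 1; omega
  rw [e1, sum_digits]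
  refine Finset.sum_congr rfl fun e _ => Finset.sum_congr rfl fun e' _ => ?_
  congr 3
  have e2 : (p : ℤ) ^ b = (p : ℤ) ^ a * (p : ℤ) ^ (b - a) := by rw [← pow_add]; congr 1; omega
  push_cast
  rw [e2]; ring

/-- Hölder step. -/
lemma BI_holder {p k l a b : ℕ} (hl1 : 1 ≤ l) (hlk : l < k) (w : Ω → ℝ) (hw : ∀ ω, 0 ≤ w ω) (F : ℤ → Ω → ℂ)
    (S : Finset ℤ) (c c' : ℤ) (θ : ℝ) (hθ : θ = 1 / ((k - l + 1 : ℕ) : ℝ)) (K1 K2 x y : ℝ) (hK1 : 0 ≤ K1) (hK2 : 0 ≤ K2)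
    (hx : 0 ≤ x) (hy : 0 ≤ y)
    (h1 : BI p k w F S (k - l) b c' a c ≤ K1 * (y ^ sk (k - l) * x ^ (sk k - sk (k - l))))
    (h2 : BI p k w F S (l - 1) a c b c' ≤ K2 * (x ^ sk (l - 1) * y ^ (sk k - sk (l - 1)))) :
    BI p k w F S l a c b c' ≤ (K1 ^ θ * K2 ^ (1 - θ)) * (x ^ sk l * y ^ (sk k - sk l)) := by
  have hkl : (2 : ℝ) ≤ ((k - l + 1 : ℕ) : ℝ) := by exact_mod_cast (by omega : 2 ≤ k - l + 1)
  have hθ0 : 0 < θ := by rw [hθ]; positivity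
  have hθ1 : θ < 1 := by
    rw [hθ, div_lt_one (by linarith)]; linarith
  have hθm : θ * ((k - l + 1 : ℕ) : ℝ) = 1 := by rw [hθ]; field_simp
  obtain ⟨K, hK⟩ : ∃ K : ℝ, K = k := ⟨_, rfl⟩
  obtain ⟨L, hL⟩ : ∃ L : ℝ, L = l := ⟨_, rfl⟩
  have hklR : ((k - l + 1 : ℕ) : ℝ) = K - L + 1 := by
    rw [Nat.cast_add, Nat.cast_sub hlk.le, ← hK, ← hL]; push_cast; ring
  rw [hklR] at hθm
  have s1 : 2 * ((sk l : ℕ) : ℝ) = L * (L + 1) := by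
    have := two_sk l
    have h : ((2 * sk l : ℕ) : ℝ) = ((l * (l + 1) : ℕ) : ℝ) := by rw [this]
    push_cast at h; rw [← hL] at h; exact h
  have s2 : 2 * ((sk k : ℕ) : ℝ) = K * (K + 1) := by
    have := two_sk k
    have h : ((2 * sk k : ℕ) : ℝ) = ((k * (k + 1) : ℕ) : ℝ) := by rw [this]
    push_cast at h; rw [← hK] at h; exact h
  have s3 : 2 * ((sk (k - l) : ℕ) : ℝ) = (K - L) * (K - L + 1) := by
    have := two_sk (k - l)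
    have h : ((2 * sk (k - l) : ℕ) : ℝ) = (((k - l) * (k - l + 1) : ℕ) : ℝ) := by rw [this]
    rw [Nat.cast_mul, Nat.cast_mul, Nat.cast_add, Nat.cast_sub hlk.le, ← hK, ← hL] at h
    push_cast at h; exact h
  have s4 : 2 * ((sk (l - 1) : ℕ) : ℝ) = (L - 1) * L := by
    have := two_sk (l - 1)
    have e : l - 1 + 1 = l := by omega
    rw [e] at this
    have h : ((2 * sk (l - 1) : ℕ) : ℝ) = (((l - 1) * l : ℕ) : ℝ) := by rw [this]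
    rw [Nat.cast_mul, Nat.cast_mul, Nat.cast_sub hl1, ← hL] at h
    push_cast at h; exact h
  have m1 := sk_mono hlk.le
  have m2 : sk (k - l) ≤ sk k := sk_mono (by omega)
  have m3 : sk (l - 1) ≤ sk k := sk_mono (by omega)
  have c1 : ((sk k - sk l : ℕ) : ℝ) = (sk k : ℕ) - (sk l : ℕ) := Nat.cast_sub m1
  have c2 : ((sk k - sk (k - l) : ℕ) : ℝ) = (sk k : ℕ) - (sk (k - l) : ℕ) := Nat.cast_sub m2
  have c3 : ((sk k - sk (l - 1) : ℕ) : ℝ) = (sk k : ℕ) - (sk (l - 1) : ℕ) := Nat.cast_sub m3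
  have i1 : ((sk l : ℕ) : ℝ) = θ * ((sk k - sk (k - l) : ℕ) : ℝ) + (1 - θ) * ((sk (l - 1) : ℕ) : ℝ) := by
    rw [c2]
    have t1 : ((sk k : ℕ) : ℝ) = K * (K + 1) / 2 := by linarith
    have t2 : ((sk (k - l) : ℕ) : ℝ) = (K - L) * (K - L + 1) / 2 := by linarith
    have t3 : ((sk (l - 1) : ℕ) : ℝ) = (L - 1) * L / 2 := by linarith
    have t4 : ((sk l : ℕ) : ℝ) = L * (L + 1) / 2 := by linarith
    rw [t1, t2, t3, t4]
    have e : θ * (K * (K + 1) / 2 - (K - L) * (K - L + 1) / 2) + (1 - θ) * ((L - 1) * L / 2) =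
        (L - 1) * L / 2 + (θ * (K - L + 1)) * L := by ring
    rw [e, hθm]; ring
  have i2 : ((sk k - sk l : ℕ) : ℝ) = θ * ((sk (k - l) : ℕ) : ℝ) + (1 - θ) * ((sk k - sk (l - 1) : ℕ) : ℝ) := by
    rw [c1, c3]
    rw [c2] at i1
    linear_combination -i1
  have j1 : ((2 * sk l : ℕ) : ℝ) = θ * ((2 * (sk k - sk (k - l)) : ℕ) : ℝ) + (1 - θ) * ((2 * sk (l - 1) : ℕ) : ℝ) := by
    rw [Nat.cast_mul, Nat.cast_mul, Nat.cast_mul, i1]; push_cast; ring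
  have j2 : ((2 * (sk k - sk l) : ℕ) : ℝ) = θ * ((2 * sk (k - l) : ℕ) : ℝ) + (1 - θ) * ((2 * (sk k - sk (l - 1)) : ℕ) : ℝ) := by
    rw [Nat.cast_mul, Nat.cast_mul, Nat.cast_mul, i2]; push_cast; ring
  have h3 := interp w hw (fun ω => ‖fa p F S a c ω‖) (fun ω => ‖fa p F S b c' ω‖) (fun _ => norm_nonneg _)
    (fun _ => norm_nonneg _) θ hθ0 hθ1 _ _ _ _ _ _ j1 j2
  have h4 : ∑ ω, w ω * (‖fa p F S a c ω‖ ^ (2 * (sk k - sk (k - l))) * ‖fa p F S b c' ω‖ ^ (2 * sk (k - l))) =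
      BI p k w F S (k - l) b c' a c := by
    unfold BI
    refine Finset.sum_congr rfl fun ω _ => ?_
    ring
  rw [h4] at h3
  have h5 : BI p k w F S l a c b c' ≤ (BI p k w F S (k - l) b c' a c) ^ θ * (BI p k w F S (l - 1) a c b c') ^ (1 - θ) := h3
  refine h5.trans ?_
  have h6 : (BI p k w F S (k - l) b c' a c) ^ θ ≤ (K1 * (y ^ sk (k - l) * x ^ (sk k - sk (k - l)))) ^ θ :=
    Real.rpow_le_rpow (BI_nonneg hw _ _ _ _ _ _ _) h1 hθ0.le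
  have h7 : (BI p k w F S (l - 1) a c b c') ^ (1 - θ) ≤ (K2 * (x ^ sk (l - 1) * y ^ (sk k - sk (l - 1)))) ^ (1 - θ) :=
    Real.rpow_le_rpow (BI_nonneg hw _ _ _ _ _ _ _) h2 (by linarith)
  refine (mul_le_mul h6 h7 (Real.rpow_nonneg (BI_nonneg hw _ _ _ _ _ _ _) _) (by positivity)).trans (le_of_eq ?_)
  rw [Real.mul_rpow hK1 (by positivity), Real.mul_rpow hK2 (by positivity), Real.mul_rpow (by positivity) (by positivity),
    Real.mul_rpow (by positivity) (by positivity), pow_interp x θ hx hθ0 hθ1 _ _ _ i1, pow_interp y θ hy hθ0 hθ1 _ _ _ i2]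
  ring

/-- the trivial bilinear bound. -/
lemma BI_base {p k B l a b : ℕ} (hk : 1 ≤ k) (hlk : l ≤ k) (w : Ω → ℝ) (hw : ∀ ω, 0 ≤ w ω) (F : ℤ → Ω → ℂ)
    (S : Finset ℤ) (c c' : ℤ) (K : ℝ) (hK : 0 ≤ K)
    (h1 : nm w (sk k) (fa p F S a c) ≤ K * Nn p k B w F S a c ^ sk k)
    (h2 : nm w (sk k) (fa p F S b c') ≤ K * Nn p k B w F S b c' ^ sk k) :
    BI p k w F S l a c b c' ≤ K * (Nn p k B w F S a c ^ sk l * Nn p k B w F S b c' ^ (sk k - sk l)) := by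
  obtain ⟨x, hx⟩ : ∃ x, x = Nn p k B w F S a c := ⟨_, rfl⟩
  obtain ⟨y, hy⟩ : ∃ y, y = Nn p k B w F S b c' := ⟨_, rfl⟩
  have hx0 : 0 ≤ x := by rw [hx]; exact Nn_nonneg hw _ _ _ _
  have hy0 : 0 ≤ y := by rw [hy]; exact Nn_nonneg hw _ _ _ _
  rw [← hx] at h1 ⊢
  rw [← hy] at h2 ⊢
  have hs := sk_pos k hk
  rcases Nat.eq_zero_or_pos l with h0 | h0
  · have e : sk l = 0 := by rw [h0]; rfl
    unfold BI
    rw [e]
    simp only [mul_zero, pow_zero, one_mul, Nat.sub_zero]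
    exact h2
  rcases hlk.eq_or_lt with h3 | h3
  · unfold BI
    rw [h3, Nat.sub_self]
    simp only [mul_zero, pow_zero, mul_one]
    exact h1
  have hsl : 1 ≤ sk l := sk_pos l h0
  have hslk : sk l < sk k := by
    have e1 := two_sk l
    have e2 := two_sk k
    have : l * (l + 1) < k * (k + 1) := Nat.mul_lt_mul'' h3 (by omega)
    omega
  obtain ⟨θ, hθ⟩ : ∃ θ : ℝ, θ = (sk l : ℝ) / sk k := ⟨_, rfl⟩
  have hs0 : (0 : ℝ) < sk k := by exact_mod_cast hs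
  have hθ0 : 0 < θ := by rw [hθ]; positivity
  have hθ1 : θ < 1 := by
    rw [hθ, div_lt_one hs0]; exact_mod_cast hslk
  have hθs : θ * sk k = sk l := by rw [hθ]; field_simp
  have c1 : ((sk k - sk l : ℕ) : ℝ) = (sk k : ℕ) - (sk l : ℕ) := Nat.cast_sub hslk.le
  have i1 : ((sk l : ℕ) : ℝ) = θ * ((sk k : ℕ) : ℝ) + (1 - θ) * ((0 : ℕ) : ℝ) := by
    rw [hθs]; simp
  have i2 : ((sk k - sk l : ℕ) : ℝ) = θ * ((0 : ℕ) : ℝ) + (1 - θ) * ((sk k : ℕ) : ℝ) := by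
    rw [c1, ← hθs]; push_cast; ring
  have j1 : ((2 * sk l : ℕ) : ℝ) = θ * ((2 * sk k : ℕ) : ℝ) + (1 - θ) * ((0 : ℕ) : ℝ) := by
    rw [Nat.cast_mul, Nat.cast_mul, i1]; push_cast; ring
  have j2 : ((2 * (sk k - sk l) : ℕ) : ℝ) = θ * ((0 : ℕ) : ℝ) + (1 - θ) * ((2 * sk k : ℕ) : ℝ) := by
    rw [Nat.cast_mul, Nat.cast_mul, i2]; push_cast; ring
  have h4 := interp w hw (fun ω => ‖fa p F S a c ω‖) (fun ω => ‖fa p F S b c' ω‖) (fun _ => norm_nonneg _)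
    (fun _ => norm_nonneg _) θ hθ0 hθ1 _ _ _ _ _ _ j1 j2
  simp only [pow_zero, mul_one, one_mul] at h4
  have h5 : BI p k w F S l a c b c' ≤ (nm w (sk k) (fa p F S a c)) ^ θ * (nm w (sk k) (fa p F S b c')) ^ (1 - θ) := h4
  refine h5.trans ?_
  have h6 := Real.rpow_le_rpow (nm_nonneg hw _ _) h1 hθ0.le
  have h7 := Real.rpow_le_rpow (nm_nonneg hw _ _) h2 (by linarith : 0 ≤ 1 - θ)
  refine (mul_le_mul h6 h7 (Real.rpow_nonneg (nm_nonneg hw _ _) _) (by positivity)).trans (le_of_eq ?_)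
  rw [Real.mul_rpow hK (by positivity), Real.mul_rpow hK (by positivity), pow_interp x θ hx0 hθ0 hθ1 _ _ _ i1,
    pow_interp y θ hy0 hθ0 hθ1 _ _ _ i2]
  have e3 : K ^ θ * K ^ (1 - θ) = K := by
    rw [← Real.rpow_add_of_nonneg hK hθ0.le (by linarith)]
    have : θ + (1 - θ) = 1 := by ring
    rw [this, Real.rpow_one]
  simp only [pow_zero, Real.one_rpow, mul_one, one_mul]
  calc K ^ θ * (x ^ sk k) ^ θ * (K ^ (1 - θ) * (y ^ sk k) ^ (1 - θ)) =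
        (K ^ θ * K ^ (1 - θ)) * ((x ^ sk k) ^ θ * (y ^ sk k) ^ (1 - θ)) := by ring
    _ = _ := by rw [e3]

/-- lower degree step. -/
lemma BI_lower {p k B l a a' b n : ℕ} (hp : p.Prime) (hpk : k < p) (hl1 : 1 ≤ l) (hlk : l ≤ k) (C ε : ℝ) (hC : 1 ≤ C)
    (hDec : ∀ h : ℕ, Dec Ω p l h (C * (p : ℝ) ^ (ε * h)))
    (w : Ω → ℝ) (F : ℤ → Ω → ℂ) (S : Finset ℤ) (hw : ∀ ω, 0 ≤ w ω) (hOS : OS w F S 1 k (sk k) ((p : ℤ) ^ (k * B)))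
    (hla : l ≤ a) (haa : a ≤ a') (haB : a' ≤ B) (hab : l * a' ≤ (k - l + 1) * b) (hbB : (k - l + 1) * b ≤ k * B)
    (hn : (a' : ℝ) ≤ a * (1 + 1 / (2 * (l : ℝ))) ^ n) (c c' : ℤ) (hcc : ¬ (p : ℤ) ∣ c - c') (K0 y : ℝ) (hK0 : 0 ≤ K0)
    (hy : 0 ≤ y)
    (h0 : ∀ c1 : ℤ, ¬ (p : ℤ) ∣ c1 - c' → BI p k w F S l a' c1 b c' ≤ K0 * (Nn p k B w F S a' c1 ^ sk l * y)) :
    BI p k w F S l a c b c' ≤ (C ^ n * (p : ℝ) ^ (ε * ((a' - a : ℕ) : ℝ))) * K0 * (Nn p k B w F S a c ^ sk l * y) := by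
  have hp0 : (0 : ℝ) < p := by exact_mod_cast hp.pos
  obtain ⟨t, ht⟩ : ∃ t, t = sk k - sk l := ⟨_, rfl⟩
  have hst : sk k = sk l + t := by
    have := sk_mono hlk
    omega
  have hOS' : OS w F S 1 k (sk l + t) ((p : ℤ) ^ (k * B)) := by rw [← hst]; exact hOS
  have htr := transv w F S hOS' c' hbB
  obtain ⟨w', hw'⟩ : ∃ w' : Ω → ℝ, w' = fun ω => w ω * ‖Sm (cls (p ^ b) S c') F ω‖ ^ (2 * t) := ⟨_, rfl⟩
  rw [← hw'] at htr
  have hw'0 : ∀ ω, 0 ≤ w' ω := by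
    intro ω; rw [hw']; exact mul_nonneg (hw ω) (by positivity)
  have h1 := inner_dec hp hpk hlk hl1 C ε hC hDec w' _ _ hw'0 htr n a a' hla haa hab hn (c - c') hcc
  have e1 : ∀ (m : ℕ) (d : ℤ), nm w' (sk l) (Sm (cls (p ^ m) (pre S c' 1 le_rfl) d) (fun z => F (c' + ((1 : ℕ) : ℤ) * z))) =
      BI p k w F S l m (c' + d) b c' := by
    intro m d
    rw [Sm_pre, one_mul]
    unfold nm BI fa
    rw [hw', ← ht]
    refine Finset.sum_congr rfl fun ω _ => ?_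
    have : c' + ((1 : ℕ) : ℤ) * d = c' + d := by push_cast; ring
    rw [this]; ring
  rw [e1] at h1
  have e2 : c' + (c - c') = c := by ring
  rw [e2] at h1
  refine h1.trans ?_
  simp only [e1]
  have hz : ∀ e : ℕ, ¬ (p : ℤ) ∣ (c + (p : ℤ) ^ a * e) - c' := by
    intro e hd
    apply hcc
    have h2 : (p : ℤ) ∣ (p : ℤ) ^ a * e := Dvd.dvd.mul_right (dvd_pow_self _ (by omega)) _
    have e3 : (c + (p : ℤ) ^ a * e) - c' = (c - c') + (p : ℤ) ^ a * e := by ring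
    rw [e3] at hd
    exact (Int.dvd_add_left h2).1 hd
  have e4 : ∀ e : ℕ, c' + (c - c' + (p : ℤ) ^ a * e) = c + (p : ℤ) ^ a * e := by intro e; ring
  simp only [e4]
  have hc2 := comb (range (p ^ (a' - a))) (sk l) (sk_pos l hl1) (K0 * y) (by positivity)
    (fun e : ℕ => BI p k w F S l a' (c + (p : ℤ) ^ a * e) b c')
    (fun e : ℕ => Nn p k B w F S a' (c + (p : ℤ) ^ a * e)) (fun _ _ => BI_nonneg hw _ _ _ _ _ _ _)
    (fun _ _ => Nn_nonneg hw _ _ _ _) (fun e _ => by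
      refine (h0 _ (hz e)).trans (le_of_eq ?_)
      ring)
  rw [Nn_split haa haB] at hc2
  calc _ ≤ (C ^ n * (p : ℝ) ^ (ε * ((a' - a : ℕ) : ℝ))) * (K0 * y * Nn p k B w F S a c ^ sk l) :=
        mul_le_mul_of_nonneg_left hc2 (by positivity)
    _ = _ := by ring

end Pool.Agent.helper132_dc
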