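import Pool.Agent.helper132_dc.D6

/-! The recursion. -/

namespace Pool.Agent.helper132_dc

open Finset

variable {Ω : Type} [Fintype Ω]

/-- the gains. -/
noncomputable def Aq (k : ℕ) : ℕ → ℕ → ℝ
  | 0, l => if l = 0 then 1 else 0
  | n + 1, l => if l = 0 then 1 else
      Aq k n (k - l) / l + (((k - l : ℕ) : ℝ) / ((k - l + 1 : ℕ) : ℝ)) * Aq k n (l - 1)

lemma Aq_zero (k n : ℕ) : Aq k n 0 = 1 := by
  cases n <;> simp [Aq]

lemma Aq_succ (k n l : ℕ) (hl : 1 ≤ l) : Aq k (n + 1) l =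
    Aq k n (k - l) / l + (((k - l : ℕ) : ℝ) / ((k - l + 1 : ℕ) : ℝ)) * Aq k n (l - 1) := by
  have : l ≠ 0 := by omega
  simp only [Aq, this, if_false]

lemma Aq_sum (k n : ℕ) (hk : 2 ≤ k) : ∑ l ∈ Finset.Ico 1 k, Aq k n l = n * (((k : ℝ) - 1) / k) := by
  induction n with
  | zero =>
    rw [Nat.cast_zero, zero_mul]
    refine Finset.sum_eq_zero fun l hl => ?_
    rw [Finset.mem_Ico] at hl
    have : l ≠ 0 := by omega
    simp [Aq, this]
  | succ n ih =>
    have e1 : ∑ l ∈ Finset.Ico 1 k, Aq k (n + 1) l = ∑ l ∈ Finset.Ico 1 k, Aq k n (k - l) / l +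
        ∑ l ∈ Finset.Ico 1 k, (((k - l : ℕ) : ℝ) / ((k - l + 1 : ℕ) : ℝ)) * Aq k n (l - 1) := by
      rw [← Finset.sum_add_distrib]
      refine Finset.sum_congr rfl fun l hl => ?_
      rw [Finset.mem_Ico] at hl
      exact Aq_succ k n l hl.1
    have e2 : ∑ l ∈ Finset.Ico 1 k, Aq k n (k - l) / l = ∑ m ∈ Finset.Ico 1 k, Aq k n m / ((k - m : ℕ) : ℝ) := by
      refine Finset.sum_nbij' (fun l => k - l) (fun m => k - m) ?_ ?_ ?_ ?_ ?_
      · intro l hl; rw [Finset.mem_Ico] at hl ⊢; omega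
      · intro l hl; rw [Finset.mem_Ico] at hl ⊢; omega
      · intro l hl; rw [Finset.mem_Ico] at hl; omega
      · intro l hl; rw [Finset.mem_Ico] at hl; omega
      · intro l hl
        rw [Finset.mem_Ico] at hl
        have : k - (k - l) = l := by omega
        rw [this]
    have e3 : ∑ l ∈ Finset.Ico 1 k, (((k - l : ℕ) : ℝ) / ((k - l + 1 : ℕ) : ℝ)) * Aq k n (l - 1) =
        ∑ m ∈ range (k - 1), (((k - m - 1 : ℕ) : ℝ) / ((k - m : ℕ) : ℝ)) * Aq k n m := by
      rw [Finset.sum_Ico_eq_sum_range]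
      refine Finset.sum_congr rfl fun m hm => ?_
      rw [Finset.mem_range] at hm
      have h1 : k - (1 + m) = k - m - 1 := by omega
      have h2 : k - m - 1 + 1 = k - m := by omega
      have h3 : 1 + m - 1 = m := by omega
      rw [h1, h2, h3]
    obtain ⟨j, hj⟩ : ∃ j, k = j + 2 := ⟨k - 2, by omega⟩
    have e4 : ∑ m ∈ range (k - 1), (((k - m - 1 : ℕ) : ℝ) / ((k - m : ℕ) : ℝ)) * Aq k n m =
        ((k : ℝ) - 1) / k + ∑ m ∈ Finset.Ico 1 k, (((k - m - 1 : ℕ) : ℝ) / ((k - m : ℕ) : ℝ)) * Aq k n m := by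
      have h1 : k - 1 = j + 1 := by omega
      rw [h1, Finset.range_eq_Ico, Finset.sum_eq_sum_Ico_succ_bot (by omega : 0 < j + 1)]
      have h2 : k = (j + 1) + 1 := by omega
      have h3 : ∑ m ∈ Finset.Ico 1 k, (((k - m - 1 : ℕ) : ℝ) / ((k - m : ℕ) : ℝ)) * Aq k n m =
          ∑ m ∈ Finset.Ico (0 + 1) (j + 1), (((k - m - 1 : ℕ) : ℝ) / ((k - m : ℕ) : ℝ)) * Aq k n m := by
        have h4 : Finset.Ico 1 k = Finset.Ico 1 ((j + 1) + 1) := by rw [← h2]
        rw [h4, Finset.sum_Ico_succ_top (by omega : 1 ≤ j + 1)]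
        have h5 : k - (j + 1) - 1 = 0 := by omega
        rw [h5]; simp
      rw [h3, Aq_zero]
      congr 1
      rw [Nat.sub_zero, Nat.cast_sub (by omega : 1 ≤ k)]
      push_cast; ring
    rw [e1, e2, e3, e4]
    have e5 : ∑ m ∈ Finset.Ico 1 k, Aq k n m / ((k - m : ℕ) : ℝ) +
        ∑ m ∈ Finset.Ico 1 k, (((k - m - 1 : ℕ) : ℝ) / ((k - m : ℕ) : ℝ)) * Aq k n m = ∑ m ∈ Finset.Ico 1 k, Aq k n m := by
      rw [← Finset.sum_add_distrib]
      refine Finset.sum_congr rfl fun m hm => ?_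
      rw [Finset.mem_Ico] at hm
      have h1 : (0 : ℝ) < ((k - m : ℕ) : ℝ) := by exact_mod_cast (by omega : 0 < k - m)
      have h2 : ((k - m - 1 : ℕ) : ℝ) = ((k - m : ℕ) : ℝ) - 1 := by
        rw [Nat.cast_sub (by omega : 1 ≤ k - m)]; push_cast; ring
      rw [h2]
      field_simp
      ring
    rw [ih] at e5
    push_cast
    linarith

lemma Aq_large (k n : ℕ) (hk : 2 ≤ k) : ∃ l, 1 ≤ l ∧ l < k ∧ (n : ℝ) / k ≤ Aq k n l := by
  by_contra hcon
  push Not at hcon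
  have h1 := Aq_sum k n hk
  have hk0 : (0 : ℝ) < k := by exact_mod_cast (by omega : 0 < k)
  have h2 : ∑ l ∈ Finset.Ico 1 k, Aq k n l < ∑ _l ∈ Finset.Ico 1 k, (n : ℝ) / k := by
    refine Finset.sum_lt_sum_of_nonempty ⟨1, by rw [Finset.mem_Ico]; omega⟩ fun l hl => ?_
    rw [Finset.mem_Ico] at hl
    exact hcon l hl.1 hl.2
  rw [h1, Finset.sum_const, Nat.card_Ico, nsmul_eq_mul, Nat.cast_sub (by omega : 1 ≤ k)] at h2
  have h3 : (n : ℝ) * (((k : ℝ) - 1) / k) = ((k : ℝ) - ((1 : ℕ) : ℝ)) * ((n : ℝ) / k) := by push_cast; ring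
  linarith

lemma exists_steps (k : ℕ) (hk : 1 ≤ k) : ∃ n : ℕ, (k : ℝ) ^ 2 ≤ (1 + 1 / (2 * (k : ℝ))) ^ n := by
  have hk0 : (0 : ℝ) < k := by exact_mod_cast hk
  obtain ⟨n, hn⟩ := pow_unbounded_of_one_lt ((k : ℝ) ^ 2) (by
    have : (0 : ℝ) < 1 / (2 * (k : ℝ)) := by positivity
    linarith : (1 : ℝ) < 1 + 1 / (2 * (k : ℝ)))
  exact ⟨n, hn.le⟩

/-- the divisor. -/
def Dk (k : ℕ) : ℕ := k * (k.factorial * k.factorial)

lemma Dk_le (k : ℕ) : k ≤ Dk k := by
  unfold Dk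
  have hfac1 : 1 ≤ k.factorial := Nat.factorial_pos k
  exact Nat.le_mul_of_pos_right _ (Nat.mul_pos hfac1 hfac1)

/-- arithmetic of the levels. -/
lemma levels {k l n b : ℕ} (hl1 : 1 ≤ l) (hlk : l < k) (hdb : Dk k ^ (n + 1) ∣ b) (hb1 : 1 ≤ b) :
    ∃ a, l * a = (k - l + 1) * b ∧ Dk k ^ n ∣ a ∧ k ≤ a ∧ a ≤ k * b ∧ (∃ b1, (k - l) * b1 = (l + 1) * a ∧ b ≤ b1 ∧ b1 ≤ k * a) ∧
      (2 ≤ l → ∃ a2, (l - 1) * a2 = (k - l + 2) * b ∧ a ≤ a2 ∧ a2 ≤ k * b) := by
  obtain ⟨D, hD⟩ : ∃ D, D = Dk k := ⟨_, rfl⟩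
  have hfac1 : 1 ≤ k.factorial := Nat.factorial_pos k
  have hDk : k ≤ D := by rw [hD]; exact Dk_le k
  rw [← hD] at hdb ⊢
  have hdD : D ∣ b := dvd_trans (dvd_pow_self D (by omega)) hdb
  obtain ⟨b0, hb0⟩ : ∃ b0, b = D * b0 := hdD
  have hb0n : D ^ n ∣ b0 := by
    rw [hb0, pow_succ, mul_comm (D ^ n) D] at hdb
    exact Nat.dvd_of_mul_dvd_mul_left (by omega) hdb
  have hb01 : 1 ≤ b0 := by
    rcases Nat.eq_zero_or_pos b0 with h | h
    · rw [h, mul_zero] at hb0; omega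
    · exact h
  have hlfac : ∀ i, 1 ≤ i → i ≤ k → i ∣ k.factorial := fun i h1 h2 => Nat.dvd_factorial h1 h2
  obtain ⟨fl, hfl⟩ := hlfac l hl1 hlk.le
  obtain ⟨fm, hfm⟩ := hlfac (k - l) (by omega) (by omega)
  have hfl1 : 1 ≤ fl := by
    rcases Nat.eq_zero_or_pos fl with h | h
    · rw [h, mul_zero] at hfl; omega
    · exact h
  obtain ⟨a, ha⟩ : ∃ a, a = (k - l + 1) * (k * fl * k.factorial * b0) := ⟨_, rfl⟩
  have hla : l * a = (k - l + 1) * b := by
    rw [ha, hb0, hD]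
    unfold Dk
    calc l * ((k - l + 1) * (k * fl * k.factorial * b0)) = (k - l + 1) * (k * (l * fl) * k.factorial * b0) := by ring
      _ = _ := by rw [← hfl]; ring
  have hka : k ≤ a := by
    rw [ha]
    have h1 : 1 ≤ (k - l + 1) * (fl * k.factorial * b0) :=
      Nat.mul_pos (by omega) (Nat.mul_pos (Nat.mul_pos hfl1 hfac1) hb01)
    have h4 : (k - l + 1) * (k * fl * k.factorial * b0) = k * ((k - l + 1) * (fl * k.factorial * b0)) := by ring
    rw [h4]
    exact Nat.le_mul_of_pos_right _ h1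
  have hdna : D ^ n ∣ a := by
    rw [ha]
    exact Dvd.dvd.mul_left (Dvd.dvd.mul_left hb0n _) _
  have hakb : a ≤ k * b := by
    have h1 : (k - l + 1) * b ≤ k * b := Nat.mul_le_mul_right _ (by omega)
    have h2 : a ≤ l * a := Nat.le_mul_of_pos_left _ hl1
    omega
  refine ⟨a, hla, hdna, hka, hakb, ?_, ?_⟩
  · refine ⟨(l + 1) * ((k - l + 1) * (k * fl * fm * b0)), ?_, ?_, ?_⟩
    · rw [ha, hfm]; ring
    · have h1 : (k - l) * ((l + 1) * ((k - l + 1) * (k * fl * fm * b0))) = (l + 1) * a := by rw [ha, hfm]; ring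
      have h2 : l * (k - l) * ((l + 1) * ((k - l + 1) * (k * fl * fm * b0))) = (l + 1) * (k - l + 1) * b := by
        calc l * (k - l) * ((l + 1) * ((k - l + 1) * (k * fl * fm * b0))) =
              l * ((k - l) * ((l + 1) * ((k - l + 1) * (k * fl * fm * b0)))) := by ring
          _ = (l + 1) * (l * a) := by rw [h1]; ring
          _ = _ := by rw [hla]; ring
      have h3 : l * (k - l) * b ≤ (l + 1) * (k - l + 1) * b :=
        Nat.mul_le_mul_right _ (Nat.mul_le_mul (by omega) (by omega))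
      rw [← h2] at h3
      exact Nat.le_of_mul_le_mul_left h3 (Nat.mul_pos hl1 (by omega))
    · have h1 : (k - l) * ((l + 1) * ((k - l + 1) * (k * fl * fm * b0))) = (l + 1) * a := by rw [ha, hfm]; ring
      have h2 : (l + 1) * a ≤ k * a := Nat.mul_le_mul_right _ (by omega)
      have h3 : (l + 1) * ((k - l + 1) * (k * fl * fm * b0)) ≤
        (k - l) * ((l + 1) * ((k - l + 1) * (k * fl * fm * b0))) := Nat.le_mul_of_pos_left _ (by omega)
      omega
  · intro hl2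
    obtain ⟨fn, hfn⟩ := hlfac (l - 1) (by omega) (by omega)
    refine ⟨(k - l + 2) * (k * fn * k.factorial * b0), ?_, ?_, ?_⟩
    · rw [hb0, hD]
      unfold Dk
      calc (l - 1) * ((k - l + 2) * (k * fn * k.factorial * b0)) =
            (k - l + 2) * (k * ((l - 1) * fn) * k.factorial * b0) := by ring
        _ = _ := by rw [← hfn]; ring
    · have h1 : (l - 1) * ((k - l + 2) * (k * fn * k.factorial * b0)) = (k - l + 2) * b := by
        rw [hb0, hD]
        unfold Dk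
        calc (l - 1) * ((k - l + 2) * (k * fn * k.factorial * b0)) =
              (k - l + 2) * (k * ((l - 1) * fn) * k.factorial * b0) := by ring
          _ = _ := by rw [← hfn]; ring
      have h2 : (l - 1) * a ≤ (l - 1) * ((k - l + 2) * (k * fn * k.factorial * b0)) := by
        rw [h1]
        have h3 : (l - 1) * a ≤ l * a := Nat.mul_le_mul_right _ (by omega)
        have h4 : (k - l + 1) * b ≤ (k - l + 2) * b := Nat.mul_le_mul_right _ (by omega)
        omega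
      exact Nat.le_of_mul_le_mul_left h2 (by omega)
    · have h1 : (l - 1) * ((k - l + 2) * (k * fn * k.factorial * b0)) = (k - l + 2) * b := by
        rw [hb0, hD]
        unfold Dk
        calc (l - 1) * ((k - l + 2) * (k * fn * k.factorial * b0)) =
              (k - l + 2) * (k * ((l - 1) * fn) * k.factorial * b0) := by ring
          _ = _ := by rw [← hfn]; ring
      have h2 : (k - l + 2) * b ≤ k * b := Nat.mul_le_mul_right _ (by omega)
      have h3 : (k - l + 2) * (k * fn * k.factorial * b0) ≤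
        (l - 1) * ((k - l + 2) * (k * fn * k.factorial * b0)) := Nat.le_mul_of_pos_left _ (by omega)
      omega

/-- the recursive bound for the bilinear quantities. -/
theorem recur {p k B n0 : ℕ} (hp : p.Prime) (hpk : k < p) (hk : 2 ≤ k) (C ε CL lam : ℝ) (hC : 1 ≤ C) (hε : 0 ≤ ε)
    (hCL : 1 ≤ CL) (hlam : 0 ≤ lam) (hn0 : (k : ℝ) ^ 2 ≤ (1 + 1 / (2 * (k : ℝ))) ^ n0)
    (hDec : ∀ l, 1 ≤ l → l < k → ∀ h : ℕ, Dec Ω p l h (C * (p : ℝ) ^ (ε * h)))
    (hLin : ∀ h : ℕ, Dec Ω p k h (CL * (p : ℝ) ^ (lam * h)))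
    (w : Ω → ℝ) (F : ℤ → Ω → ℂ) (S : Finset ℤ) (hw : ∀ ω, 0 ≤ w ω) (hOS : OS w F S 1 k (sk k) ((p : ℤ) ^ (k * B)))
    (n : ℕ) : ∀ (l a b : ℕ) (c c' : ℤ), 1 ≤ l → l < k → Dk k ^ n ∣ b → 1 ≤ b → l * a = (k - l + 1) * b →
      k ^ (n + 1) * b ≤ B → ¬ (p : ℤ) ∣ c - c' →
      BI p k w F S l a c b c' ≤ (CL * (C ^ n0 * (p : ℝ) ^ (ε * B)) ^ n * (p : ℝ) ^ (lam * (B - Aq k n l * b))) *
        (Nn p k B w F S a c ^ sk l * Nn p k B w F S b c' ^ (sk k - sk l)) := by
  have hp0 : (0 : ℝ) < p := by exact_mod_cast hp.pos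
  have hp1 : (1 : ℝ) ≤ p := by exact_mod_cast hp.one_lt.le
  have hlin : ∀ (a : ℕ) (c : ℤ), a ≤ B → nm w (sk k) (fa p F S a c) ≤
      (CL * (p : ℝ) ^ (lam * ((B : ℝ) - a))) * Nn p k B w F S a c ^ sk k := by
    intro a c haB
    have h1 := dec_cls hp.one_lt.le haB (hLin (B - a)) w F S hw hOS c
    rw [Nat.cast_sub haB] at h1
    exact h1
  induction n with
  | zero =>
    intro l a b c c' hl1 hlk _ hb1 hab hB hcc
    rw [zero_add, pow_one] at hB
    have hbB : b ≤ B := le_trans (by nlinarith) hB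
    have haB : a ≤ B := by
      have h1 : (k - l + 1) * b ≤ k * b := Nat.mul_le_mul_right _ (by omega)
      have h2 : a ≤ l * a := Nat.le_mul_of_pos_left _ hl1
      omega
    have hl0 : l ≠ 0 := by omega
    have hA : Aq k 0 l = 0 := by simp [Aq, hl0]
    rw [hA, pow_zero, mul_one, zero_mul, sub_zero]
    refine BI_base (by omega) hlk.le w hw F S c c' _ (by positivity) ?_ ?_
    · refine (hlin a c haB).trans (mul_le_mul_of_nonneg_right ?_ (pow_nonneg (Nn_nonneg hw _ _ _ _) _))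
      refine mul_le_mul_of_nonneg_left (Real.rpow_le_rpow_of_exponent_le hp1 ?_) (by linarith)
      have : (0 : ℝ) ≤ a := Nat.cast_nonneg a
      nlinarith
    · refine (hlin b c' hbB).trans (mul_le_mul_of_nonneg_right ?_ (pow_nonneg (Nn_nonneg hw _ _ _ _) _))
      refine mul_le_mul_of_nonneg_left (Real.rpow_le_rpow_of_exponent_le hp1 ?_) (by linarith)
      have : (0 : ℝ) ≤ b := Nat.cast_nonneg b
      nlinarith
  | succ n ih =>
    intro l a b c c' hl1 hlk hdb hb1 hab hB hcc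
    obtain ⟨a', hab', hdna, hka, hakb, ⟨b1, hb1e, hbb1, hb1a⟩, hlev2⟩ := levels hl1 hlk hdb hb1
    have haa' : a' = a := Nat.eq_of_mul_eq_mul_left (by omega : 0 < l) (by rw [hab, hab'])
    subst haa'
    have hDkk := Dk_le k
    have hdn : Dk k ^ n ∣ b := dvd_trans (pow_dvd_pow _ (by omega)) hdb
    have hbD : Dk k ≤ b := Nat.le_of_dvd hb1 (dvd_trans (dvd_pow_self _ (by omega)) hdb)
    have hbk : k ≤ b := by omega
    have hkn1 : 1 ≤ k ^ n := Nat.one_le_pow _ _ (by omega)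
    have hkn2 : 1 ≤ k ^ (n + 1) := Nat.one_le_pow _ _ (by omega)
    have hBb : k ^ (n + 1) * b ≤ B := le_trans (Nat.mul_le_mul_right _ (Nat.pow_le_pow_right (by omega) (by omega))) hB
    have hBa : k ^ (n + 1) * a' ≤ B := by
      refine le_trans (Nat.mul_le_mul_left _ hakb) (le_trans (le_of_eq ?_) hB)
      ring
    have hk2b : k * (k * b) ≤ B := by
      refine le_trans ?_ hB
      have h1 : k ^ (n + 1 + 1) * b = k ^ n * (k * (k * b)) := by ring
      rw [h1]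
      exact Nat.le_mul_of_pos_left _ hkn1
    have haB : a' ≤ B := le_trans (Nat.le_mul_of_pos_left _ hkn2) hBa
    have hbB : b ≤ B := le_trans (Nat.le_mul_of_pos_left _ hkn2) hBb
    have hkaB : k * a' ≤ B := le_trans (Nat.mul_le_mul_left _ hakb) hk2b
    have hkbB : k * b ≤ B := le_trans (Nat.le_mul_of_pos_left _ (by omega : 0 < k)) hk2b
    -- the constant
    obtain ⟨G, hG⟩ : ∃ G : ℝ, G = C ^ n0 * (p : ℝ) ^ (ε * B) := ⟨_, rfl⟩
    have hG1 : 1 ≤ G := by
      rw [hG]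
      have h1 : 1 ≤ C ^ n0 := one_le_pow₀ hC
      have h2 : (1 : ℝ) ≤ (p : ℝ) ^ (ε * B) := Real.one_le_rpow hp1 (by positivity)
      nlinarith
    have hGlow : ∀ x y : ℕ, y ≤ B → C ^ n0 * (p : ℝ) ^ (ε * ((y - x : ℕ) : ℝ)) ≤ G := by
      intro x y hyB
      rw [hG]
      refine mul_le_mul_of_nonneg_left (Real.rpow_le_rpow_of_exponent_le hp1 ?_) (by positivity)
      refine mul_le_mul_of_nonneg_left ?_ hε
      exact_mod_cast (by omega : y - x ≤ B)
    rw [← hG] at ih ⊢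
    have hG0 : 0 < G := by linarith
    have hCL0 : 0 < CL := by linarith
    have hsteps : ∀ l' x y : ℕ, 1 ≤ l' → l' ≤ k → y ≤ k * (k * x) → (y : ℝ) ≤ x * (1 + 1 / (2 * (l' : ℝ))) ^ n0 := by
      intro l' x y hl1' hlk' hxy
      have h1 : (y : ℝ) ≤ k * (k * x) := by exact_mod_cast hxy
      have h2 : (1 : ℝ) + 1 / (2 * (k : ℝ)) ≤ 1 + 1 / (2 * (l' : ℝ)) := by
        have h3 : (0 : ℝ) < l' := by exact_mod_cast hl1'
        have h4 : (l' : ℝ) ≤ k := by exact_mod_cast hlk'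
        have h5 : 1 / (2 * (k : ℝ)) ≤ 1 / (2 * (l' : ℝ)) := one_div_le_one_div_of_le (by positivity) (by linarith)
        linarith
      have h6 : (k : ℝ) ^ 2 ≤ (1 + 1 / (2 * (l' : ℝ))) ^ n0 := hn0.trans (pow_le_pow_left₀ (by positivity) h2 _)
      have h7 : (0 : ℝ) ≤ x := Nat.cast_nonneg x
      calc (y : ℝ) ≤ k * (k * x) := h1
        _ = x * (k : ℝ) ^ 2 := by ring
        _ ≤ _ := mul_le_mul_of_nonneg_left h6 h7
    have hcc' : ¬ (p : ℤ) ∣ c' - c := by
      intro h; apply hcc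
      have := (dvd_neg).2 h
      rwa [neg_sub] at this
    -- first factor
    have hfirst : BI p k w F S (k - l) b c' a' c ≤
        (CL * G ^ (n + 1) * (p : ℝ) ^ (lam * (B - Aq k n (k - l) * a'))) *
          (Nn p k B w F S b c' ^ sk (k - l) * Nn p k B w F S a' c ^ (sk k - sk (k - l))) := by
      have hkl : k - (k - l) + 1 = l + 1 := by omega
      have h1 := BI_lower (Ω := Ω) (p := p) (k := k) (B := B) (l := k - l) (a := b) (a' := b1) (b := a') (n := n0) hp hpk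
        (by omega) (by omega) C ε hC (hDec (k - l) (by omega) (by omega)) w F S hw hOS (by omega) hbb1
        (le_trans hb1a hkaB) (by rw [hkl, hb1e])
        (by rw [hkl]; exact Nat.mul_le_mul (by omega) haB)
        (hsteps (k - l) b b1 (by omega) (by omega) (le_trans hb1a (Nat.mul_le_mul_left _ hakb))) c' c hcc'
        (CL * G ^ n * (p : ℝ) ^ (lam * (B - Aq k n (k - l) * a'))) (Nn p k B w F S a' c ^ (sk k - sk (k - l)))
        (by positivity) (pow_nonneg (Nn_nonneg hw _ _ _ _) _)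
        (fun c1 hc1 => ih (k - l) b1 a' c1 c (by omega) (by omega) hdna (by omega) (by rw [hkl, hb1e]) hBa hc1)
      refine h1.trans (mul_le_mul_of_nonneg_right ?_ (mul_nonneg (pow_nonneg (Nn_nonneg hw _ _ _ _) _)
        (pow_nonneg (Nn_nonneg hw _ _ _ _) _)))
      calc C ^ n0 * (p : ℝ) ^ (ε * ((b1 - b : ℕ) : ℝ)) * (CL * G ^ n * (p : ℝ) ^ (lam * (B - Aq k n (k - l) * a'))) ≤
            G * (CL * G ^ n * (p : ℝ) ^ (lam * (B - Aq k n (k - l) * a'))) :=
            mul_le_mul_of_nonneg_right (hGlow b b1 (le_trans hb1a hkaB)) (by positivity)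
        _ = _ := by ring
    have hsecond : BI p k w F S (l - 1) a' c b c' ≤
        (CL * G ^ (n + 1) * (p : ℝ) ^ (lam * (B - Aq k n (l - 1) * b))) *
          (Nn p k B w F S a' c ^ sk (l - 1) * Nn p k B w F S b c' ^ (sk k - sk (l - 1))) := by
      rcases hl1.eq_or_lt with h | h
      · rw [← h, Nat.sub_self, Aq_zero]
        have e0 : sk 0 = 0 := rfl
        unfold BI
        rw [e0]
        simp only [mul_zero, pow_zero, one_mul, Nat.sub_zero]
        refine (hlin b c' hbB).trans (mul_le_mul_of_nonneg_right ?_ (pow_nonneg (Nn_nonneg hw _ _ _ _) _))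
        refine mul_le_mul_of_nonneg_right ?_ (by positivity)
        have : (1 : ℝ) ≤ G ^ (n + 1) := one_le_pow₀ hG1
        nlinarith
      · obtain ⟨a2, ha2e, haa2, ha2k⟩ := hlev2 h
        have hkl : k - (l - 1) + 1 = k - l + 2 := by omega
        have h1 := BI_lower (Ω := Ω) (p := p) (k := k) (B := B) (l := l - 1) (a := a') (a' := a2) (b := b) (n := n0) hp hpk
          (by omega) (by omega) C ε hC (hDec (l - 1) (by omega) (by omega)) w F S hw hOS (by omega) haa2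
          (le_trans ha2k hkbB) (by rw [hkl, ha2e])
          (by rw [hkl]; exact Nat.mul_le_mul (by omega) hbB)
          (hsteps (l - 1) a' a2 (by omega) (by omega) (by
            have h2 : b ≤ k * a' := by
              have h3 : b ≤ (k - l + 1) * b := Nat.le_mul_of_pos_left _ (by omega)
              have h4 : l * a' ≤ k * a' := Nat.mul_le_mul_right _ (by omega)
              omega
            exact le_trans ha2k (Nat.mul_le_mul_left _ h2))) c c' hcc
          (CL * G ^ n * (p : ℝ) ^ (lam * (B - Aq k n (l - 1) * b))) (Nn p k B w F S b c' ^ (sk k - sk (l - 1)))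
          (by positivity) (pow_nonneg (Nn_nonneg hw _ _ _ _) _)
          (fun c1 hc1 => ih (l - 1) a2 b c1 c' (by omega) (by omega) hdn hb1 (by rw [hkl, ha2e]) hBb hc1)
        refine h1.trans (mul_le_mul_of_nonneg_right ?_ (mul_nonneg (pow_nonneg (Nn_nonneg hw _ _ _ _) _)
          (pow_nonneg (Nn_nonneg hw _ _ _ _) _)))
        calc C ^ n0 * (p : ℝ) ^ (ε * ((a2 - a' : ℕ) : ℝ)) * (CL * G ^ n * (p : ℝ) ^ (lam * (B - Aq k n (l - 1) * b))) ≤
              G * (CL * G ^ n * (p : ℝ) ^ (lam * (B - Aq k n (l - 1) * b))) :=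
              mul_le_mul_of_nonneg_right (hGlow a' a2 (le_trans ha2k hkbB)) (by positivity)
          _ = _ := by ring
    obtain ⟨θ, hθ⟩ : ∃ θ : ℝ, θ = 1 / ((k - l + 1 : ℕ) : ℝ) := ⟨_, rfl⟩
    have h3 := BI_holder hl1 hlk w hw F S c c' θ hθ _ _ _ _ (by positivity) (by positivity)
      (Nn_nonneg hw F S a' c) (Nn_nonneg hw F S b c') hfirst hsecond
    refine h3.trans (mul_le_mul_of_nonneg_right (le_of_eq ?_) (mul_nonneg (pow_nonneg (Nn_nonneg hw _ _ _ _) _)
        (pow_nonneg (Nn_nonneg hw _ _ _ _) _)))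
    have hkl0 : (0 : ℝ) < ((k - l + 1 : ℕ) : ℝ) := by exact_mod_cast (by omega : 0 < k - l + 1)
    have hl0 : (0 : ℝ) < (l : ℝ) := by exact_mod_cast (by omega : 0 < l)
    obtain ⟨E, hE⟩ : ∃ E : ℝ, E = CL * G ^ (n + 1) := ⟨_, rfl⟩
    have hE0 : 0 < E := by rw [hE]; positivity
    rw [← hE]
    rw [Real.mul_rpow hE0.le (Real.rpow_nonneg hp0.le _), Real.mul_rpow hE0.le (Real.rpow_nonneg hp0.le _),
      ← Real.rpow_mul hp0.le, ← Real.rpow_mul hp0.le]
    have e1 : E ^ θ * (p : ℝ) ^ (lam * (B - Aq k n (k - l) * a') * θ) *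
        (E ^ (1 - θ) * (p : ℝ) ^ (lam * (B - Aq k n (l - 1) * b) * (1 - θ))) =
        (E ^ θ * E ^ (1 - θ)) * ((p : ℝ) ^ (lam * (B - Aq k n (k - l) * a') * θ) *
          (p : ℝ) ^ (lam * (B - Aq k n (l - 1) * b) * (1 - θ))) := by ring
    rw [e1, ← Real.rpow_add hE0, ← Real.rpow_add hp0]
    have e2 : θ + (1 - θ) = 1 := by ring
    rw [e2, Real.rpow_one]
    congr 2
    rw [Aq_succ k n l hl1]
    have e3 : θ * a' = b / l := by
      rw [hθ]
      have h4 : (l : ℝ) * a' = ((k - l + 1 : ℕ) : ℝ) * b := by exact_mod_cast hab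
      field_simp
      linarith
    have e4 : 1 - θ = ((k - l : ℕ) : ℝ) / ((k - l + 1 : ℕ) : ℝ) := by
      rw [hθ]
      have h5 : ((k - l + 1 : ℕ) : ℝ) = ((k - l : ℕ) : ℝ) + 1 := by push_cast; ring
      rw [h5] at hkl0 ⊢
      field_simp
      ring
    rw [← e4]
    calc lam * (B - Aq k n (k - l) * a') * θ + lam * (B - Aq k n (l - 1) * b) * (1 - θ) =
          lam * (B - Aq k n (k - l) * (θ * a') - (1 - θ) * Aq k n (l - 1) * b) := by ring
      _ = _ := by rw [e3]; ring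

end Pool.Agent.helper132_dc
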