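import Pool.Agent.helper132_dc.D7

/-! Broad-narrow. -/

namespace Pool.Agent.helper132_dc

open Finset

variable {Ω : Type} [Fintype Ω]

lemma exists_large (R : ℕ) (hR : 1 ≤ R) (g : ℕ → ℂ) : ∃ e, e < R ∧ ‖∑ e ∈ range R, g e‖ ≤ R * ‖g e‖ := by
  obtain ⟨e0, he0, hmax⟩ := Finset.exists_max_image (range R) (fun e => ‖g e‖) ⟨0, by rw [Finset.mem_range]; omega⟩
  refine ⟨e0, Finset.mem_range.1 he0, (norm_sum_le _ _).trans ?_⟩
  refine (Finset.sum_le_card_nsmul _ _ _ hmax).trans ?_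
  rw [Finset.card_range, nsmul_eq_mul]

lemma exists_two (p : ℕ) (hp : 1 ≤ p) (g : ℕ → ℂ) :
    (∃ c, c < p ∧ ‖∑ e ∈ range p, g e‖ ≤ 2 * ‖g c‖) ∨
      (∃ c c', c < p ∧ c' < p ∧ c ≠ c' ∧ ‖∑ e ∈ range p, g e‖ ≤ 2 * p * ‖g c‖ ∧ ‖∑ e ∈ range p, g e‖ ≤ 2 * p * ‖g c'‖) := by
  classical
  have hp1 : (1 : ℝ) ≤ p := by exact_mod_cast hp
  obtain ⟨c0, hc0, hmax⟩ := Finset.exists_max_image (range p) (fun e => ‖g e‖) ⟨0, by rw [Finset.mem_range]; omega⟩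
  by_cases h : ‖∑ e ∈ range p, g e‖ ≤ 2 * ‖g c0‖
  · exact Or.inl ⟨c0, Finset.mem_range.1 hc0, h⟩
  right
  push Not at h
  have e1 : ∑ e ∈ range p, g e = g c0 + ∑ e ∈ (range p).erase c0, g e := (Finset.add_sum_erase _ _ hc0).symm
  have h1 : ‖∑ e ∈ range p, g e‖ ≤ ‖g c0‖ + ‖∑ e ∈ (range p).erase c0, g e‖ := by rw [e1]; exact norm_add_le _ _
  have h2 : ∃ c' ∈ (range p).erase c0, ‖∑ e ∈ (range p).erase c0, g e‖ ≤ p * ‖g c'‖ := by
    by_contra hcon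
    push Not at hcon
    have hne : ((range p).erase c0).Nonempty := by
      rw [Finset.nonempty_iff_ne_empty]
      intro h0
      rw [h0, Finset.sum_empty, norm_zero] at h1
      have := norm_nonneg (g c0)
      linarith
    have h3 : ∑ e ∈ (range p).erase c0, (p : ℝ) * ‖g e‖ <
        ∑ _e ∈ (range p).erase c0, ‖∑ e ∈ (range p).erase c0, g e‖ := Finset.sum_lt_sum_of_nonempty hne hcon
    rw [Finset.sum_const, nsmul_eq_mul, ← Finset.mul_sum] at h3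
    have h4 : (((range p).erase c0).card : ℝ) ≤ p := by
      have := Finset.card_erase_le (s := range p) (a := c0)
      rw [Finset.card_range] at this
      exact_mod_cast this
    have h5 : ‖∑ e ∈ (range p).erase c0, g e‖ ≤ ∑ e ∈ (range p).erase c0, ‖g e‖ := norm_sum_le _ _
    have h6 : (((range p).erase c0).card : ℝ) * ‖∑ e ∈ (range p).erase c0, g e‖ ≤
      p * ∑ e ∈ (range p).erase c0, ‖g e‖ := mul_le_mul h4 h5 (norm_nonneg _) (by linarith)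
    linarith
  obtain ⟨c', hc', h3⟩ := h2
  rw [Finset.mem_erase] at hc'
  have h4 : ‖g c'‖ ≤ ‖g c0‖ := hmax c' hc'.2
  have h5 : ‖∑ e ∈ range p, g e‖ ≤ 2 * p * ‖g c'‖ := by linarith
  refine ⟨c0, c', Finset.mem_range.1 hc0, Finset.mem_range.1 hc'.2, hc'.1.symm, ?_, h5⟩
  refine h5.trans (mul_le_mul_of_nonneg_left h4 (by linarith))

/-- pointwise broad-narrow inequality. -/
lemma pointwise {p a b s t : ℕ} (hp : 1 ≤ p) (ha : 1 ≤ a) (hb : 1 ≤ b) (hts : t ≤ s) (F : ℤ → Ω → ℂ) (S : Finset ℤ)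
    (ω : Ω) : ‖Sm S F ω‖ ^ (2 * s) ≤ 2 ^ (2 * s) * ∑ c ∈ range p, ‖fa p F S 1 c ω‖ ^ (2 * s) +
      (2 * (p : ℝ) ^ (a + b)) ^ (2 * s) * ∑ c ∈ range (p ^ a), ∑ c' ∈ range (p ^ b),
        (if (p : ℤ) ∣ (c : ℤ) - c' then 0 else ‖fa p F S a c ω‖ ^ (2 * t) * ‖fa p F S b c' ω‖ ^ (2 * (s - t))) := by
  have hp1 : (1 : ℝ) ≤ p := by exact_mod_cast hp
  have hterm : ∀ c c' : ℕ, 0 ≤ (if (p : ℤ) ∣ (c : ℤ) - c' then (0 : ℝ) else
      ‖fa p F S a c ω‖ ^ (2 * t) * ‖fa p F S b c' ω‖ ^ (2 * (s - t))) := by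
    intro c c'; split_ifs
    · exact le_rfl
    · positivity
  have hsplit : Sm S F ω = ∑ c ∈ range p, fa p F S 1 c ω := by
    have h1 := Sm_split 1 p le_rfl hp S 0 F ω
    rw [cls_one] at h1
    rw [h1]
    refine Finset.sum_congr rfl fun c _ => ?_
    unfold fa
    rw [one_mul, pow_one]
    congr 3
    push_cast; ring
  have hsub : ∀ (m : ℕ) (c : ℕ), 1 ≤ m → c < p → ∃ c1 < p ^ m, (p : ℤ) ∣ (c1 : ℤ) - c ∧
      ‖fa p F S 1 c ω‖ ≤ (p : ℝ) ^ (m - 1) * ‖fa p F S m c1 ω‖ := by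
    intro m c hm hc
    have hP : 1 ≤ p ^ (m - 1) := Nat.one_le_pow _ _ hp
    have h1 := Sm_split p (p ^ (m - 1)) hp hP S c F ω
    have e1 : p * p ^ (m - 1) = p ^ m := by rw [← pow_succ']; congr 1; omega
    rw [e1] at h1
    obtain ⟨e, he, h2⟩ := exists_large (p ^ (m - 1)) hP (fun e => Sm (cls (p ^ m) S (c + p * e)) F ω)
    refine ⟨c + p * e, ?_, ?_, ?_⟩
    · have h3 : e + 1 ≤ p ^ (m - 1) := he
      have h4 : p * (e + 1) ≤ p * p ^ (m - 1) := Nat.mul_le_mul_left _ h3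
      rw [e1] at h4
      have h5 : p * (e + 1) = p * e + p := by ring
      omega
    · refine ⟨e, ?_⟩
      push_cast; ring
    · have e2 : fa p F S 1 c ω = Sm (cls p S c) F ω := by unfold fa; rw [pow_one]
      rw [e2, h1]
      refine h2.trans (le_of_eq ?_)
      unfold fa
      push_cast
      rfl
  rcases exists_two p hp (fun c => fa p F S 1 c ω) with ⟨c, hc, h⟩ | ⟨c, c', hc, hc', hne, h1, h2⟩
  · rw [← hsplit] at h
    have h3 : ‖Sm S F ω‖ ^ (2 * s) ≤ 2 ^ (2 * s) * ‖fa p F S 1 c ω‖ ^ (2 * s) := by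
      rw [← mul_pow]; exact pow_le_pow_left₀ (norm_nonneg _) h _
    have h4 : ‖fa p F S 1 c ω‖ ^ (2 * s) ≤ ∑ c ∈ range p, ‖fa p F S 1 c ω‖ ^ (2 * s) :=
      Finset.single_le_sum (f := fun c : ℕ => ‖fa p F S 1 c ω‖ ^ (2 * s)) (fun c _ => by positivity)
        (Finset.mem_range.2 hc)
    have h5 : 0 ≤ (2 * (p : ℝ) ^ (a + b)) ^ (2 * s) * ∑ c ∈ range (p ^ a), ∑ c' ∈ range (p ^ b),
        (if (p : ℤ) ∣ (c : ℤ) - c' then 0 else ‖fa p F S a c ω‖ ^ (2 * t) * ‖fa p F S b c' ω‖ ^ (2 * (s - t))) :=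
      mul_nonneg (by positivity) (Finset.sum_nonneg fun c _ => Finset.sum_nonneg fun c' _ => hterm c c')
    have h6 : (2 : ℝ) ^ (2 * s) * ‖fa p F S 1 c ω‖ ^ (2 * s) ≤ 2 ^ (2 * s) * ∑ c ∈ range p, ‖fa p F S 1 c ω‖ ^ (2 * s) :=
      mul_le_mul_of_nonneg_left h4 (by positivity)
    linarith
  · rw [← hsplit] at h1 h2
    obtain ⟨d, hd, hdc, h3⟩ := hsub a c ha hc
    obtain ⟨d', hd', hdc', h4⟩ := hsub b c' hb hc'
    have hndvd : ¬ (p : ℤ) ∣ (d : ℤ) - d' := by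
      intro hdv
      have h5 : (p : ℤ) ∣ (c : ℤ) - c' := by
        have e : (c : ℤ) - c' = (d - d') - (d - c) + (d' - c') := by ring
        rw [e]
        exact dvd_add (dvd_sub hdv hdc) hdc'
      have h6 := Int.eq_zero_of_abs_lt_dvd h5 (by
        rw [abs_lt]
        have hc1 : (c : ℤ) < p := by exact_mod_cast hc
        have hc2 : (c' : ℤ) < p := by exact_mod_cast hc'
        constructor <;> omega)
      omega
    have hpa : 2 * (p : ℝ) * (p : ℝ) ^ (a - 1) ≤ 2 * (p : ℝ) ^ (a + b) := by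
      have e1 : 2 * (p : ℝ) * (p : ℝ) ^ (a - 1) = 2 * (p : ℝ) ^ a := by
        rw [mul_assoc, ← pow_succ']; congr 2; omega
      rw [e1]
      exact mul_le_mul_of_nonneg_left (pow_le_pow_right₀ hp1 (by omega)) (by norm_num)
    have hpb : 2 * (p : ℝ) * (p : ℝ) ^ (b - 1) ≤ 2 * (p : ℝ) ^ (a + b) := by
      have e1 : 2 * (p : ℝ) * (p : ℝ) ^ (b - 1) = 2 * (p : ℝ) ^ b := by
        rw [mul_assoc, ← pow_succ']; congr 2; omega
      rw [e1]
      exact mul_le_mul_of_nonneg_left (pow_le_pow_right₀ hp1 (by omega)) (by norm_num)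
    have h5 : ‖Sm S F ω‖ ≤ (2 * (p : ℝ) ^ (a + b)) * ‖fa p F S a d ω‖ := by
      refine h1.trans ((mul_le_mul_of_nonneg_left h3 (by positivity)).trans ?_)
      rw [← mul_assoc]
      exact mul_le_mul_of_nonneg_right hpa (norm_nonneg _)
    have h6 : ‖Sm S F ω‖ ≤ (2 * (p : ℝ) ^ (a + b)) * ‖fa p F S b d' ω‖ := by
      refine h2.trans ((mul_le_mul_of_nonneg_left h4 (by positivity)).trans ?_)
      rw [← mul_assoc]
      exact mul_le_mul_of_nonneg_right hpb (norm_nonneg _)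
    have h7 : ‖Sm S F ω‖ ^ (2 * s) ≤ (2 * (p : ℝ) ^ (a + b)) ^ (2 * s) *
        (‖fa p F S a d ω‖ ^ (2 * t) * ‖fa p F S b d' ω‖ ^ (2 * (s - t))) := by
      have e1 : 2 * s = 2 * t + 2 * (s - t) := by omega
      calc ‖Sm S F ω‖ ^ (2 * s) = ‖Sm S F ω‖ ^ (2 * t) * ‖Sm S F ω‖ ^ (2 * (s - t)) := by rw [← pow_add, ← e1]
        _ ≤ ((2 * (p : ℝ) ^ (a + b)) * ‖fa p F S a d ω‖) ^ (2 * t) *
            ((2 * (p : ℝ) ^ (a + b)) * ‖fa p F S b d' ω‖) ^ (2 * (s - t)) :=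
            mul_le_mul (pow_le_pow_left₀ (norm_nonneg _) h5 _) (pow_le_pow_left₀ (norm_nonneg _) h6 _) (by positivity)
              (by positivity)
        _ = ((2 * (p : ℝ) ^ (a + b)) ^ (2 * t) * (2 * (p : ℝ) ^ (a + b)) ^ (2 * (s - t))) *
            (‖fa p F S a d ω‖ ^ (2 * t) * ‖fa p F S b d' ω‖ ^ (2 * (s - t))) := by rw [mul_pow, mul_pow]; ring
        _ = _ := by rw [← pow_add, ← e1]
    have h8 : ‖fa p F S a d ω‖ ^ (2 * t) * ‖fa p F S b d' ω‖ ^ (2 * (s - t)) ≤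
        ∑ c ∈ range (p ^ a), ∑ c' ∈ range (p ^ b),
        (if (p : ℤ) ∣ (c : ℤ) - c' then 0 else ‖fa p F S a c ω‖ ^ (2 * t) * ‖fa p F S b c' ω‖ ^ (2 * (s - t))) := by
      have h9 := Finset.single_le_sum (f := fun c' : ℕ => (if (p : ℤ) ∣ (d : ℤ) - c' then 0 else
        ‖fa p F S a d ω‖ ^ (2 * t) * ‖fa p F S b c' ω‖ ^ (2 * (s - t)))) (fun c' _ => hterm d c')
        (Finset.mem_range.2 hd')
      beta_reduce at h9
      rw [if_neg hndvd] at h9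
      refine h9.trans ?_
      exact Finset.single_le_sum (f := fun c : ℕ => ∑ c' ∈ range (p ^ b), (if (p : ℤ) ∣ (c : ℤ) - c' then 0 else
        ‖fa p F S a c ω‖ ^ (2 * t) * ‖fa p F S b c' ω‖ ^ (2 * (s - t))))
        (fun c _ => Finset.sum_nonneg fun c' _ => hterm c c') (Finset.mem_range.2 hd)
    have h10 : 0 ≤ (2 : ℝ) ^ (2 * s) * ∑ c ∈ range p, ‖fa p F S 1 c ω‖ ^ (2 * s) := by positivity
    have h11 := mul_le_mul_of_nonneg_left h8 (show (0 : ℝ) ≤ (2 * (p : ℝ) ^ (a + b)) ^ (2 * s) by positivity)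
    linarith

lemma Nn_le {p k B a : ℕ} (haB : a ≤ B) (w : Ω → ℝ) (hw : ∀ ω, 0 ≤ w ω) (F : ℤ → Ω → ℂ) (S : Finset ℤ) (c : ℕ)
    (hc : c < p ^ a) : Nn p k B w F S a c ≤ Nn p k B w F S 0 0 := by
  have h := Nn_split (p := p) (k := k) (Nat.zero_le a) haB w F S 0
  rw [← h]
  have h1 := Finset.single_le_sum (f := fun e : ℕ => Nn p k B w F S a (0 + (p : ℤ) ^ 0 * e))
    (fun e _ => Nn_nonneg hw _ _ _ _) (Finset.mem_range.2 (by rw [Nat.sub_zero]; exact hc) : c ∈ range (p ^ (a - 0)))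
  beta_reduce at h1
  rw [pow_zero, one_mul, zero_add] at h1
  exact h1

lemma sum_pow_le {ι : Type} (I : Finset ι) (s : ℕ) (hs : 1 ≤ s) (x : ι → ℝ) (hx : ∀ i ∈ I, 0 ≤ x i) :
    ∑ i ∈ I, x i ^ s ≤ (∑ i ∈ I, x i) ^ s := by
  obtain ⟨t, rfl⟩ : ∃ t, s = t + 1 := ⟨s - 1, by omega⟩
  have h0 : 0 ≤ ∑ i ∈ I, x i := Finset.sum_nonneg hx
  rw [pow_succ' (∑ i ∈ I, x i), Finset.sum_mul]
  refine Finset.sum_le_sum fun i hi => ?_
  rw [pow_succ']
  exact mul_le_mul_of_nonneg_left (pow_le_pow_left₀ (hx i hi) (Finset.single_le_sum hx hi) _) (hx i hi)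

/-- one step of the broad-narrow argument. -/
lemma bn_step {p k B l a b : ℕ} (hp : 1 ≤ p) (hl1 : 1 ≤ l) (hlk : l < k) (ha : 1 ≤ a) (haB : a ≤ B) (hb : 1 ≤ b)
    (hbB : b ≤ B) (D1 K : ℝ) (hD1 : 0 ≤ D1) (hK0 : 0 ≤ K) (hDec : Dec Ω p k (B - 1) D1)
    (w : Ω → ℝ) (F : ℤ → Ω → ℂ) (S : Finset ℤ) (hw : ∀ ω, 0 ≤ w ω) (hOS : OS w F S 1 k (sk k) ((p : ℤ) ^ (k * B)))
    (hK : ∀ c c' : ℤ, ¬ (p : ℤ) ∣ c - c' → BI p k w F S l a c b c' ≤
      K * (Nn p k B w F S a c ^ sk l * Nn p k B w F S b c' ^ (sk k - sk l))) :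
    nm w (sk k) (Sm S F) ≤ (2 ^ (2 * sk k) * D1 + (2 * (p : ℝ) ^ (a + b)) ^ (2 * sk k) * (p : ℝ) ^ (a + b) * K) *
      Nn p k B w F S 0 0 ^ sk k := by
  have hs := sk_pos k (by omega)
  have hslk := sk_mono hlk.le
  obtain ⟨N0, hN0⟩ : ∃ N0, N0 = Nn p k B w F S 0 0 := ⟨_, rfl⟩
  have hN00 : 0 ≤ N0 := by rw [hN0]; exact Nn_nonneg hw _ _ _ _
  rw [← hN0]
  have h1 : nm w (sk k) (Sm S F) ≤ 2 ^ (2 * sk k) * ∑ c ∈ range p, nm w (sk k) (fa p F S 1 c) +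
      (2 * (p : ℝ) ^ (a + b)) ^ (2 * sk k) * ∑ c ∈ range (p ^ a), ∑ c' ∈ range (p ^ b),
        (if (p : ℤ) ∣ (c : ℤ) - c' then 0 else BI p k w F S l a c b c') := by
    unfold nm
    refine (Finset.sum_le_sum fun ω _ => mul_le_mul_of_nonneg_left (pointwise hp ha hb hslk F S ω) (hw ω)).trans
      (le_of_eq ?_)
    simp only [mul_add]
    rw [Finset.sum_add_distrib]
    congr 1
    · rw [Finset.sum_comm, Finset.mul_sum]
      refine Finset.sum_congr rfl fun ω _ => ?_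
      rw [← Finset.mul_sum]; ring
    · simp only [Finset.mul_sum]
      rw [Finset.sum_comm]
      refine Finset.sum_congr rfl fun c _ => ?_
      rw [Finset.sum_comm]
      refine Finset.sum_congr rfl fun c' _ => ?_
      split_ifs
      · simp
      · unfold BI
        rw [Finset.mul_sum]
        refine Finset.sum_congr rfl fun ω _ => ?_
        ring
  have h2 : ∑ c ∈ range p, nm w (sk k) (fa p F S 1 c) ≤ D1 * N0 ^ sk k := by
    have h3 : ∀ c ∈ range p, nm w (sk k) (fa p F S 1 c) ≤ D1 * Nn p k B w F S 1 c ^ sk k := by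
      intro c _
      exact dec_cls hp (by omega) hDec w F S hw hOS c
    refine (Finset.sum_le_sum h3).trans ?_
    rw [← Finset.mul_sum]
    refine mul_le_mul_of_nonneg_left ?_ hD1
    refine (sum_pow_le (range p) (sk k) hs _ fun c _ => Nn_nonneg hw _ _ _ _).trans (le_of_eq ?_)
    congr 1
    have h4 := Nn_split (p := p) (k := k) (Nat.zero_le 1) (by omega : 1 ≤ B) w F S 0
    rw [hN0, ← h4, Nat.sub_zero, pow_one]
    refine Finset.sum_congr rfl fun c _ => ?_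
    rw [pow_zero, one_mul, zero_add]
  have h5 : ∑ c ∈ range (p ^ a), ∑ c' ∈ range (p ^ b), (if (p : ℤ) ∣ (c : ℤ) - c' then 0 else BI p k w F S l a c b c') ≤
      (p : ℝ) ^ (a + b) * (K * N0 ^ sk k) := by
    have h6 : ∀ c ∈ range (p ^ a), ∑ c' ∈ range (p ^ b), (if (p : ℤ) ∣ (c : ℤ) - c' then 0 else BI p k w F S l a c b c') ≤
        (p : ℝ) ^ b * (K * N0 ^ sk k) := by
      intro c hc
      refine (Finset.sum_le_card_nsmul (range (p ^ b)) _ (K * N0 ^ sk k) ?_).trans (le_of_eq ?_)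
      · intro c' hc'
        rw [Finset.mem_range] at hc hc'
        split_ifs with hd
        · positivity
        · refine (hK c c' hd).trans (mul_le_mul_of_nonneg_left ?_ hK0)
          have e1 : N0 ^ sk k = N0 ^ sk l * N0 ^ (sk k - sk l) := by rw [← pow_add]; congr 1; omega
          rw [e1]
          have h7 := Nn_le (k := k) haB w hw F S c hc
          have h8 := Nn_le (k := k) hbB w hw F S c' hc'
          rw [← hN0] at h7 h8
          exact mul_le_mul (pow_le_pow_left₀ (Nn_nonneg hw _ _ _ _) h7 _) (pow_le_pow_left₀ (Nn_nonneg hw _ _ _ _) h8 _)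
            (pow_nonneg (Nn_nonneg hw _ _ _ _) _) (by positivity)
      · rw [Finset.card_range, nsmul_eq_mul]; push_cast; ring
    refine (Finset.sum_le_card_nsmul _ _ _ h6).trans (le_of_eq ?_)
    rw [Finset.card_range, nsmul_eq_mul, pow_add]; push_cast; ring
  calc nm w (sk k) (Sm S F) ≤ _ := h1
    _ ≤ 2 ^ (2 * sk k) * (D1 * N0 ^ sk k) + (2 * (p : ℝ) ^ (a + b)) ^ (2 * sk k) * ((p : ℝ) ^ (a + b) * (K * N0 ^ sk k)) :=
      add_le_add (mul_le_mul_of_nonneg_left h2 (by positivity)) (mul_le_mul_of_nonneg_left h5 (by positivity))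
    _ = _ := by ring

end Pool.Agent.helper132_dc
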