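import Pool.Agent.helper132_dc.D8

/-! Improving the decoupling exponent. -/

namespace Pool.Agent.helper132_dc

open Finset

/-- uniform decoupling with exponent `lam`. -/
def UDec (p k : ℕ) (C lam : ℝ) : Prop :=
  ∀ (Ω : Type) (_ : Fintype Ω) (h : ℕ), Dec Ω p k h (C * (p : ℝ) ^ (lam * h))

lemma Nn_zero {Ω : Type} [Fintype Ω] {p k B : ℕ} (w : Ω → ℝ) (F : ℤ → Ω → ℂ) (S : Finset ℤ) :
    Nn p k B w F S 0 0 = ∑ c ∈ range (p ^ B), nm w (sk k) (Sm (cls (p ^ B) S c) F) ^ ((1 : ℝ) / sk k) := by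
  unfold Nn fa
  rw [Nat.sub_zero]
  refine Finset.sum_congr rfl fun c _ => ?_
  rw [pow_zero, one_mul, zero_add]

lemma udec_trivial (p k : ℕ) (hp : 1 ≤ p) (hk : 1 ≤ k) : UDec p k 1 (2 * sk k) := by
  intro Ω _ B w F S hw hOS
  have hs := sk_pos k hk
  have hP : 1 ≤ p ^ B := Nat.one_le_pow _ _ hp
  have hp0 : (0 : ℝ) < p := by exact_mod_cast hp
  have e0 : ((p : ℝ) ^ B) ^ (2 * sk k) = (p : ℝ) ^ (2 * (sk k : ℝ) * (B : ℝ)) := by
    rw [← pow_mul, ← Real.rpow_natCast]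
    congr 1
    push_cast; ring
  rw [← e0, one_mul]
  have hpt : ∀ ω, ‖Sm S F ω‖ ^ (2 * sk k) ≤ ((p : ℝ) ^ B) ^ (2 * sk k) *
      ∑ c ∈ range (p ^ B), ‖Sm (cls (p ^ B) S c) F ω‖ ^ (2 * sk k) := by
    intro ω
    have h1 := Sm_split 1 (p ^ B) le_rfl hP S 0 F ω
    rw [cls_one] at h1
    simp only [one_mul, Nat.cast_one, zero_add] at h1
    obtain ⟨e, he, h2⟩ := exists_large (p ^ B) hP (fun e => Sm (cls (p ^ B) S e) F ω)
    rw [← h1] at h2
    refine (pow_le_pow_left₀ (norm_nonneg _) h2 _).trans ?_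
    rw [mul_pow]
    push_cast
    refine mul_le_mul_of_nonneg_left ?_ (by positivity)
    exact Finset.single_le_sum (f := fun c : ℕ => ‖Sm (cls (p ^ B) S c) F ω‖ ^ (2 * sk k)) (fun c _ => by positivity)
        (Finset.mem_range.2 he)
  have h3 : nm w (sk k) (Sm S F) ≤ ((p : ℝ) ^ B) ^ (2 * sk k) *
      ∑ c ∈ range (p ^ B), nm w (sk k) (Sm (cls (p ^ B) S c) F) := by
    unfold nm
    refine (Finset.sum_le_sum fun ω _ => mul_le_mul_of_nonneg_left (hpt ω) (hw ω)).trans (le_of_eq ?_)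
    rw [Finset.sum_comm, Finset.mul_sum]
    refine Finset.sum_congr rfl fun ω _ => ?_
    rw [← Finset.mul_sum]; ring
  refine h3.trans (mul_le_mul_of_nonneg_left ?_ (by positivity))
  have h4 := sum_pow_le (range (p ^ B)) (sk k) hs
    (fun c => nm w (sk k) (Sm (cls (p ^ B) S c) F) ^ ((1 : ℝ) / sk k))
    (fun c _ => Real.rpow_nonneg (nm_nonneg hw _ _) _)
  refine le_trans (le_of_eq ?_) h4
  refine Finset.sum_congr rfl fun c _ => ?_
  rw [one_div, Real.rpow_inv_natCast_pow (nm_nonneg hw _ _) (by omega)]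

/-- one improvement. -/
lemma improve (k : ℕ) (hk : 2 ≤ k) (lam0 : ℝ) (hlam0 : 0 < lam0) : ∃ δ ε : ℝ, 0 < δ ∧ 0 < ε ∧
    ∀ p : ℕ, p.Prime → k < p → (2 : ℝ) ^ (2 * sk k + 1) ≤ (p : ℝ) ^ lam0 → ∀ C : ℝ, 1 ≤ C →
      (∀ l, 1 ≤ l → l < k → UDec p l C ε) → ∀ lam CL : ℝ, lam0 ≤ lam → 1 ≤ CL → UDec p k CL lam →
        ∃ CL' : ℝ, 1 ≤ CL' ∧ UDec p k CL' (max (lam - δ) lam0) := by
  obtain ⟨n0, hn0⟩ := exists_steps k (by omega)
  have hk0 : (0 : ℝ) < k := by exact_mod_cast (by omega : 0 < k)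
  obtain ⟨s, hs⟩ : ∃ s, s = sk k := ⟨_, rfl⟩
  have hs1 : 1 ≤ s := by rw [hs]; exact sk_pos k (by omega)
  obtain ⟨n, hn⟩ := exists_nat_ge (((2 * (s : ℝ) + 1) * (k + 1) + 1) * k / lam0)
  have hn1 : 0 < (n : ℝ) := lt_of_lt_of_le (by positivity) hn
  obtain ⟨l, hl1, hlk, hA⟩ := Aq_large k n hk
  obtain ⟨δ, hδ⟩ : ∃ δ : ℝ, δ = 1 / (4 * (k : ℝ) ^ (n + 1)) := ⟨_, rfl⟩
  have hδ0 : 0 < δ := by rw [hδ]; positivity
  refine ⟨δ, δ / n, hδ0, by positivity, ?_⟩
  intro p hp hpk hplam C hC hDec lam CL hlam hCL hLin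
  have hp0 : (0 : ℝ) < p := by exact_mod_cast hp.pos
  have hp1 : (1 : ℝ) ≤ p := by exact_mod_cast hp.one_lt.le
  have hlam' : 0 < lam := by linarith
  obtain ⟨lam', hlam'e⟩ : ∃ lam', lam' = max (lam - δ) lam0 := ⟨_, rfl⟩
  rw [← hlam'e]
  have hlam'0 : lam0 ≤ lam' := by rw [hlam'e]; exact le_max_right _ _
  have hlam'1 : lam - δ ≤ lam' := by rw [hlam'e]; exact le_max_left _ _
  obtain ⟨Q, hQ⟩ : ∃ Q, Q = Dk k ^ (n + 1) := ⟨_, rfl⟩
  have hQ1 : 1 ≤ Q := by
    rw [hQ]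
    exact Nat.one_le_pow _ _ (le_trans (by omega) (Dk_le k))
  obtain ⟨R, hR⟩ : ∃ R, R = k ^ (n + 1) := ⟨_, rfl⟩
  have hR1 : 1 ≤ R := by rw [hR]; exact Nat.one_le_pow _ _ (by omega)
  obtain ⟨C1, hC1⟩ : ∃ C1 : ℝ, C1 = 2 ^ (2 * s) * CL * (C ^ n0) ^ n := ⟨_, rfl⟩
  have hC10 : 0 < C1 := by rw [hC1]; positivity
  have hP0 : (1 : ℝ) ≤ (p : ℝ) ^ (lam * ((Q * R : ℕ) : ℝ)) := Real.one_le_rpow hp1 (by positivity)
  obtain ⟨CL', hCL'⟩ : ∃ CL' : ℝ, CL' = 2 * C1 + CL * (p : ℝ) ^ (lam * ((Q * R : ℕ) : ℝ)) := ⟨_, rfl⟩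
  have hCL'1 : 1 ≤ CL' := by
    rw [hCL']; nlinarith
  refine ⟨CL', hCL'1, ?_⟩
  intro Ω _ B
  induction B with
  | zero =>
    have h1 := hLin Ω inferInstance 0
    refine h1.mono ?_
    rw [Nat.cast_zero, mul_zero, mul_zero, Real.rpow_zero, mul_one, mul_one, hCL']
    nlinarith
  | succ B0 ih =>
    obtain ⟨B, hB⟩ : ∃ B, B = B0 + 1 := ⟨_, rfl⟩
    rw [← hB]
    rcases Nat.lt_or_ge B (Q * R) with hBlt | hBge
    · refine (hLin Ω inferInstance B).mono ?_
      have h1 : (p : ℝ) ^ (lam * (B : ℝ)) ≤ (p : ℝ) ^ (lam * ((Q * R : ℕ) : ℝ)) :=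
        Real.rpow_le_rpow_of_exponent_le hp1 (mul_le_mul_of_nonneg_left (by exact_mod_cast hBlt.le) hlam'.le)
      have h2 : (1 : ℝ) ≤ (p : ℝ) ^ (lam' * (B : ℝ)) := Real.one_le_rpow hp1 (mul_nonneg (by linarith) (Nat.cast_nonneg _))
      calc CL * (p : ℝ) ^ (lam * (B : ℝ)) ≤ CL * (p : ℝ) ^ (lam * ((Q * R : ℕ) : ℝ)) :=
            mul_le_mul_of_nonneg_left h1 (by linarith)
        _ ≤ CL' := by rw [hCL']; linarith
        _ ≤ CL' * (p : ℝ) ^ (lam' * (B : ℝ)) := le_mul_of_one_le_right (by linarith) h2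
    · -- choice of b
      obtain ⟨q, hq⟩ : ∃ q, q = B / (Q * R) := ⟨_, rfl⟩
      have hQR : 1 ≤ Q * R := Nat.mul_pos hQ1 hR1
      have hq1 : 1 ≤ q := by rw [hq]; exact (Nat.one_le_div_iff hQR).2 hBge
      have hqB : Q * R * q ≤ B := by rw [hq]; exact Nat.mul_div_le _ _
      have hqB2 : B < Q * R * (q + 1) := by
        rw [hq]; exact Nat.lt_mul_div_succ B hQR
      obtain ⟨b, hb⟩ : ∃ b, b = Q * q := ⟨_, rfl⟩
      have hb1 : 1 ≤ b := by rw [hb]; exact Nat.mul_pos hQ1 hq1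
      have hRb : R * b ≤ B := by rw [hb]; refine le_trans (le_of_eq ?_) hqB; ring
      have hbδ : 2 * δ * (B : ℝ) ≤ b := by
        have h1 : (B : ℝ) ≤ 2 * (R * b) := by
          have h2 : B ≤ 2 * (R * b) := by
            have h3 : Q * R * (q + 1) ≤ Q * R * (2 * q) := Nat.mul_le_mul_left _ (by omega)
            have h4 : Q * R * (2 * q) = 2 * (R * b) := by rw [hb]; ring
            omega
          exact_mod_cast h2
        have h5 : δ = 1 / (4 * (R : ℝ)) := by rw [hδ, hR]; push_cast; rfl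
        have hR0 : (0 : ℝ) < R := by exact_mod_cast hR1
        rw [h5]
        have h6 : 2 * (1 / (4 * (R : ℝ))) * (B : ℝ) = B / (2 * R) := by field_simp; ring
        rw [h6, div_le_iff₀ (by positivity)]
        linarith
      -- the level a
      have hdvd : Dk k ^ (n + 1) ∣ b := by rw [← hQ, hb]; exact Dvd.intro _ rfl
      have hdvd' : Dk k ^ n ∣ b := dvd_trans (pow_dvd_pow _ (by omega)) hdvd
      obtain ⟨a, hab, -, hka, hakb, -, -⟩ := levels hl1 hlk hdvd hb1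
      have hkR : k ≤ R := by
        rw [hR, pow_succ]
        exact Nat.le_mul_of_pos_left _ (Nat.one_le_pow _ _ (by omega))
      have haB : a ≤ B := le_trans hakb (le_trans (Nat.mul_le_mul_right _ hkR) hRb)
      have hbB : b ≤ B := le_trans (Nat.le_mul_of_pos_left _ hR1) hRb
      intro w F S hw hOS
      have hKpos : 0 ≤ CL * (C ^ n0 * (p : ℝ) ^ (δ / n * B)) ^ n * (p : ℝ) ^ (lam * (B - Aq k n l * b)) := by positivity
      have hbn := bn_step (Ω := Ω) hp.one_lt.le hl1 hlk (by omega : 1 ≤ a) haB hb1 hbB (CL' * (p : ℝ) ^ (lam' * (B0 : ℝ)))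
        _ (by positivity) hKpos (by
          have e : B - 1 = B0 := by omega
          rw [e]; exact ih) w F S hw hOS
        (fun c c' hcc => recur hp hpk hk C (δ / n) CL lam hC (by positivity) hCL hlam'.le hn0
          (fun l' h1 h2 h => hDec l' h1 h2 Ω inferInstance h) (fun h => hLin Ω inferInstance h) w F S hw hOS n l a b c c'
          hl1 hlk hdvd' hb1 hab (by rw [← hR]; exact hRb) hcc)
      rw [Nn_zero] at hbn
      refine hbn.trans (mul_le_mul_of_nonneg_right ?_ (pow_nonneg (Finset.sum_nonneg fun c _ =>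
        Real.rpow_nonneg (nm_nonneg hw _ _) _) _))
      rw [← hs]
      -- first term
      have hfirst : 2 ^ (2 * s) * (CL' * (p : ℝ) ^ (lam' * (B0 : ℝ))) ≤ CL' / 2 * (p : ℝ) ^ (lam' * (B : ℝ)) := by
        have e1 : (p : ℝ) ^ (lam' * (B : ℝ)) = (p : ℝ) ^ (lam' * (B0 : ℝ)) * (p : ℝ) ^ lam' := by
          rw [← Real.rpow_add hp0, hB]; congr 1; push_cast; ring
        have h1 : (2 : ℝ) ^ (2 * s + 1) ≤ (p : ℝ) ^ lam' := by
          rw [hs]
          exact hplam.trans (Real.rpow_le_rpow_of_exponent_le hp1 hlam'0)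
        rw [pow_succ] at h1
        rw [e1]
        have h2 : 0 ≤ CL' * (p : ℝ) ^ (lam' * (B0 : ℝ)) := by positivity
        have h3 := mul_le_mul_of_nonneg_left h1 h2
        linarith
      -- second term
      have hsecond : (2 * (p : ℝ) ^ (a + b)) ^ (2 * s) * (p : ℝ) ^ (a + b) *
          (CL * (C ^ n0 * (p : ℝ) ^ (δ / n * B)) ^ n * (p : ℝ) ^ (lam * (B - Aq k n l * b))) ≤
          C1 * (p : ℝ) ^ (lam' * (B : ℝ)) := by
        have e1 : (2 * (p : ℝ) ^ (a + b)) ^ (2 * s) * (p : ℝ) ^ (a + b) =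
            2 ^ (2 * s) * (p : ℝ) ^ ((2 * (s : ℝ) + 1) * ((a : ℝ) + b)) := by
          rw [mul_pow, mul_assoc, ← pow_mul, ← pow_add, ← Real.rpow_natCast (p : ℝ)]
          congr 2
          push_cast; ring
        have e2 : (C ^ n0 * (p : ℝ) ^ (δ / n * B)) ^ n = (C ^ n0) ^ n * (p : ℝ) ^ (δ * B) := by
          rw [mul_pow, ← Real.rpow_natCast ((p : ℝ) ^ (δ / n * B)), ← Real.rpow_mul hp0.le]
          congr 2
          field_simp
        rw [e1, e2]
        have e3 : 2 ^ (2 * s) * (p : ℝ) ^ ((2 * (s : ℝ) + 1) * ((a : ℝ) + b)) *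
            (CL * ((C ^ n0) ^ n * (p : ℝ) ^ (δ * B)) * (p : ℝ) ^ (lam * (B - Aq k n l * b))) =
            C1 * (p : ℝ) ^ ((2 * (s : ℝ) + 1) * ((a : ℝ) + b) + δ * B + lam * (B - Aq k n l * b)) := by
          rw [Real.rpow_add hp0, Real.rpow_add hp0, hC1]; ring
        rw [e3]
        refine mul_le_mul_of_nonneg_left (Real.rpow_le_rpow_of_exponent_le hp1 ?_) hC10.le
        have ha' : (a : ℝ) ≤ k * b := by exact_mod_cast hakb
        have hb0 : (0 : ℝ) < b := by exact_mod_cast hb1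
        have hA2 : (2 * (s : ℝ) + 1) * (k + 1) + 1 ≤ lam * Aq k n l := by
          have h1 : ((2 * (s : ℝ) + 1) * (k + 1) + 1) ≤ lam0 * (n / k) := by
            rw [div_le_iff₀ hlam0] at hn
            rw [mul_div_assoc', le_div_iff₀ hk0]
            linarith
          have h2 : lam0 * ((n : ℝ) / k) ≤ lam * Aq k n l := mul_le_mul hlam hA (by positivity) hlam'.le
          linarith
        have h3 := mul_le_mul_of_nonneg_right hA2 hb0.le
        have h4 : (2 * (s : ℝ) + 1) * ((a : ℝ) + b) ≤ (2 * (s : ℝ) + 1) * (k + 1) * b := by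
          have : (2 * (s : ℝ) + 1) * ((a : ℝ) + b) ≤ (2 * (s : ℝ) + 1) * (k * b + b) :=
            mul_le_mul_of_nonneg_left (by linarith) (by positivity)
          linarith
        have h5 := mul_le_mul_of_nonneg_right hlam'1 (Nat.cast_nonneg (α := ℝ) B)
        nlinarith
      calc _ ≤ CL' / 2 * (p : ℝ) ^ (lam' * (B : ℝ)) + C1 * (p : ℝ) ^ (lam' * (B : ℝ)) := add_le_add hfirst hsecond
        _ = (CL' / 2 + C1) * (p : ℝ) ^ (lam' * (B : ℝ)) := by ring
        _ ≤ CL' * (p : ℝ) ^ (lam' * (B : ℝ)) := by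
          refine mul_le_mul_of_nonneg_right ?_ (by positivity)
          have : 0 ≤ CL * (p : ℝ) ^ (lam * ((Q * R : ℕ) : ℝ)) := by positivity
          rw [hCL']; linarith

/-- decoupling at degree `k` from lower degrees. -/
lemma udec_step (k : ℕ) (hk : 2 ≤ k) (lam0 : ℝ) (hlam0 : 0 < lam0) : ∃ ε : ℝ, 0 < ε ∧
    ∀ p : ℕ, p.Prime → k < p → (2 : ℝ) ^ (2 * sk k + 1) ≤ (p : ℝ) ^ lam0 → ∀ C : ℝ, 1 ≤ C →
      (∀ l, 1 ≤ l → l < k → UDec p l C ε) → ∃ C' : ℝ, 1 ≤ C' ∧ UDec p k C' lam0 := by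
  obtain ⟨δ, ε, hδ, hε, himp⟩ := improve k hk lam0 hlam0
  refine ⟨ε, hε, ?_⟩
  intro p hp hpk hplam C hC hDec
  have hp1 : (1 : ℝ) ≤ p := by exact_mod_cast hp.one_lt.le
  have hiter : ∀ j : ℕ, ∃ C' : ℝ, 1 ≤ C' ∧ UDec p k C' (max (2 * (sk k : ℝ) - j * δ) lam0) := by
    intro j
    induction j with
    | zero =>
      refine ⟨1, le_rfl, ?_⟩
      intro Ω _ h
      refine (udec_trivial p k hp.one_lt.le (by omega) Ω inferInstance h).mono ?_
      refine mul_le_mul_of_nonneg_left (Real.rpow_le_rpow_of_exponent_le hp1 ?_) (by norm_num)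
      refine mul_le_mul_of_nonneg_right ?_ (Nat.cast_nonneg _)
      rw [Nat.cast_zero, zero_mul, sub_zero]
      exact le_max_left _ _
    | succ j ih =>
      obtain ⟨C1, hC1, h1⟩ := ih
      obtain ⟨C2, hC2, h2⟩ := himp p hp hpk hplam C hC hDec _ C1 (le_max_right _ _) hC1 h1
      refine ⟨C2, hC2, ?_⟩
      intro Ω _ h
      refine (h2 Ω inferInstance h).mono ?_
      refine mul_le_mul_of_nonneg_left (Real.rpow_le_rpow_of_exponent_le hp1 ?_) (by linarith)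
      refine mul_le_mul_of_nonneg_right ?_ (Nat.cast_nonneg _)
      refine max_le ?_ (le_max_right _ _)
      rcases le_total (2 * (sk k : ℝ) - j * δ) lam0 with h3 | h3
      · rw [max_eq_right h3]
        exact le_trans (by linarith) (le_max_right _ _)
      · rw [max_eq_left h3]
        refine le_trans (le_of_eq ?_) (le_max_left _ _)
        push_cast; ring
  obtain ⟨j, hj⟩ := exists_nat_ge (2 * (sk k : ℝ) / δ)
  obtain ⟨C', hC', h1⟩ := hiter j
  have h2 : 2 * (sk k : ℝ) - j * δ ≤ lam0 := by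
    rw [div_le_iff₀ hδ] at hj
    linarith
  rw [max_eq_right h2] at h1
  exact ⟨C', hC', h1⟩

/-- **decoupling for the moment curve at the critical exponent**, `p`-adic form. -/
theorem dec_main (k : ℕ) (hk : 1 ≤ k) : ∀ ε : ℝ, 0 < ε → ∃ p0 : ℕ, ∀ p : ℕ, p.Prime → p0 ≤ p →
    ∃ C : ℝ, 1 ≤ C ∧ UDec p k C ε := by
  induction k using Nat.strong_induction_on with
  | _ k ihk =>
    intro ε hε
    rcases hk.eq_or_lt with h1 | h1
    · subst h1
      refine ⟨1, fun p hp _ => ⟨1, le_rfl, ?_⟩⟩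
      intro Ω _ h
      refine (dec_one p h hp.one_lt.le).mono ?_
      rw [one_mul]
      exact Real.one_le_rpow (by exact_mod_cast hp.one_lt.le) (by positivity)
    · obtain ⟨ε', hε', hstep⟩ := udec_step k h1 ε hε
      have hall : ∀ m : ℕ, m ≤ k → ∃ p0 : ℕ, ∀ p : ℕ, p.Prime → p0 ≤ p → ∃ C : ℝ, 1 ≤ C ∧
          ∀ l, 1 ≤ l → l < m → UDec p l C ε' := by
        intro m
        induction m with
        | zero => intro _; exact ⟨0, fun p _ _ => ⟨1, le_rfl, fun l _ h => absurd h (by omega)⟩⟩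
        | succ m ihm =>
          intro hmk
          obtain ⟨p1, hp1⟩ := ihm (by omega)
          rcases Nat.eq_zero_or_pos m with hm0 | hm0
          · subst hm0
            exact ⟨0, fun p _ _ => ⟨1, le_rfl, fun l h h' => absurd h' (by omega)⟩⟩
          obtain ⟨p2, hp2⟩ := ihk m (by omega) hm0 ε' hε'
          refine ⟨max p1 p2, fun p hp hpp => ?_⟩
          obtain ⟨C1, hC1, h2⟩ := hp1 p hp (le_trans (le_max_left _ _) hpp)
          obtain ⟨C2, hC2, h3⟩ := hp2 p hp (le_trans (le_max_right _ _) hpp)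
          refine ⟨max C1 C2, le_trans hC1 (le_max_left _ _), fun l hl1 hlm => ?_⟩
          have hp0 : (0 : ℝ) < p := by exact_mod_cast hp.pos
          intro Ω _ h
          rcases (Nat.lt_succ_iff.1 hlm).eq_or_lt with h4 | h4
          · rw [h4]
            exact (h3 Ω inferInstance h).mono (mul_le_mul_of_nonneg_right (le_max_right _ _) (by positivity))
          · exact (h2 l hl1 h4 Ω inferInstance h).mono (mul_le_mul_of_nonneg_right (le_max_left _ _) (by positivity))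
      obtain ⟨p1, hp1⟩ := hall k le_rfl
      obtain ⟨p2, hp2⟩ : ∃ p2 : ℕ, ∀ p : ℕ, p2 ≤ p → (2 : ℝ) ^ (2 * sk k + 1) ≤ (p : ℝ) ^ ε := by
        have h2 := (tendsto_rpow_atTop hε).comp (tendsto_natCast_atTop_atTop (R := ℝ))
        have h3 := h2.eventually_ge_atTop ((2 : ℝ) ^ (2 * sk k + 1))
        obtain ⟨p2, hp2⟩ := Filter.eventually_atTop.1 h3
        exact ⟨p2, fun p hp => hp2 p hp⟩
      refine ⟨max (max p1 p2) (k + 1), fun p hp hpp => ?_⟩
      obtain ⟨C, hC, h2⟩ := hp1 p hp (le_trans (le_trans (le_max_left _ _) (le_max_left _ _)) hpp)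
      exact hstep p hp (by
        have := le_trans (le_max_right _ _) hpp
        omega) (hp2 p (le_trans (le_trans (le_max_right _ _) (le_max_left _ _)) hpp)) C hC h2

end Pool.Agent.helper132_dc
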